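import Pool.Agent.H97.TU.Defs2
import Pool.Agent.H37.TU.CNT2
import Pool.Agent.H98.MR.RFA
import Pool.Agent.H98.MR.RTH

/-! # [H97 TU FRA] The abstract lacunary theorem: anchors and labelled points

From `far_r` (`Pool/Agent/H98/MR`) and the stable set (`Pool/Agent/H37/TU`): `M` anchors `A v` (twisted curves, `TauA`) and `M`
labelled points `P v` (`LbG`) of sizes `A 0 << P 0 << A 1 << P 1 << ..` do not exist.
`liftP`: raising the bound for the degree. -/

namespace Pool.Agent.H97.TU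

open Finset Polynomial Pool.Agent.H72.ES Pool.Agent.H87.SA Pool.Agent.H87.SA2 Pool.Agent.H87.AX
  Pool.Agent.H8.AW Pool.Agent.H52.AC Pool.Agent.H97.NW Pool.Agent.H34.AC Pool.Agent.H97.FB
  Pool.Agent.H97.FC Pool.Agent.H37.TU Pool.Agent.H98.MR

/-- raising the bound for the degree of a curve -/
def liftC {n n' d b : ℕ} {F : ℕ → ℕ → ℤ} (h : n ≤ n') (C : CrvB n d b F) : CrvB n' d b F where
  d1 := C.d1
  dn := C.dn.trans h
  b2 := C.b2
  lead := C.lead
  le := C.le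
  irr := C.irr
  pd := C.pd
  e_le := C.e_le
  q_le := C.q_le
  R_le := C.R_le
  bez := C.bez

/-- raising the bound for the degree of a pointed curve -/
def liftP {n n' : ℕ} (h : n ≤ n') (P : Ptd n) : Ptd n' where
  d := P.d
  b := P.b
  F := P.F
  C := liftC h P.C
  i := P.i
  T := P.T
  x := P.x
  y := P.y
  zero := P.zero
  hT := P.hT
  hy := P.hy

theorem liftP_LbG {n n' r : ℕ} {ι : Type} (h : n ≤ n') (P : Ptd n) (Θ : ι → Fin r → ℂ) (l : ι)
    (L : LbG P Θ l) : Nonempty (LbG (liftP h P) Θ l) :=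
  ⟨⟨L.S, L.th, L.mem, L.near, L.gal, L.rot⟩⟩

/-- the order of the sizes -/
private theorem order_aux {M : ℕ} {R : ℝ} (hR : 1 ≤ R) (x a : Fin M → ℝ) (ha : ∀ v, 0 ≤ a v)
    (h1 : ∀ v, R * a v ≤ x v) (h2 : ∀ v w, v < w → R * x v ≤ a w) (ℓ : Fin (2 * M) → ℝ)
    (hc : ∀ v, ℓ (cv v) = x (Fin.rev v)) (hd : ∀ v, ℓ (an v) = a (Fin.rev v)) :
    ∀ i j : Fin (2 * M), i < j → R * ℓ j ≤ ℓ i := by
  have hx : ∀ v, a v ≤ x v := fun v => (le_mul_of_one_le_left (ha v) hR).trans (h1 v)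
  have hx0 : ∀ v, 0 ≤ x v := fun v => (ha v).trans (hx v)
  have h3 : ∀ v w, v < w → R * a v ≤ a w := fun v w hvw =>
    ((h1 v).trans (le_mul_of_one_le_left (hx0 v) hR)).trans (h2 v w hvw)
  have h4 : ∀ v w, v < w → R * x v ≤ x w := fun v w hvw => (h2 v w hvw).trans (hx w)
  intro i j hij
  rcases exists_cv_an i with ⟨v, rfl⟩ | ⟨v, rfl⟩ <;> rcases exists_cv_an j with ⟨w, rfl⟩ | ⟨w, rfl⟩
  · rw [hc, hc]
    apply h4
    rw [Fin.rev_lt_rev]
    simp only [cv, Fin.mk_lt_mk] at hij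
    exact Fin.lt_def.2 (by omega)
  · rw [hc, hd]
    simp only [cv, an, Fin.mk_lt_mk] at hij
    rcases eq_or_ne v w with h | h
    · rw [h]
      exact h1 _
    · have h5 : v < w := Fin.lt_def.2 (by
        have : v.val ≠ w.val := fun h' => h (Fin.ext h')
        omega)
      exact (h3 _ _ (Fin.rev_lt_rev.2 h5)).trans (hx _)
  · rw [hc, hd]
    simp only [cv, an, Fin.mk_lt_mk] at hij
    exact h2 _ _ (Fin.rev_lt_rev.2 (Fin.lt_def.2 (by omega)))
  · rw [hd, hd]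
    simp only [an, Fin.mk_lt_mk] at hij
    exact h3 _ _ (Fin.rev_lt_rev.2 (Fin.lt_def.2 (by omega)))

theorem farA (n r s M ν κ : ℕ) (hM : 1 ≤ M) (hν : 4 ≤ ν) (hnum : Num M n r s) :
    ∃ (R1 : ℝ) (c : ℕ), 1 ≤ R1 ∧ ∀ (gs : Fin M → ℤ[X])
      (θ : Fin M → Fin n → ℂ) (gc : Fin M → ℤ[X]) (gam : Fin M → Fin n → ℂ) (q : ℚ[X]) (β : ℂ)
      (p φ : Fin M → ℚ[X]) (l : Fin M → Fin n),
      Irreducible q → q.natDegree = r → aeval β q = 0 → (∀ v, (gc v).Monic) →
      (∀ v, Rts (gc v) (gam v)) → (∀ v, p v ≠ 0) → (∀ v, (p v).natDegree ≤ s) →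
      (∀ v, aeval (gam v (l v)) (p v) = 0) → (∀ v, aeval (gam v (l v)) (φ v) = β) →
      (∀ v, (gs v).Monic) → (∀ v, Irreducible ((gs v).map (Int.castRingHom ℚ))) →
      (∀ v, Rts (gs v) (θ v)) → ∀ P A : Fin M → Ptd ν,
      (∀ v, Nonempty (LbG (P v) (v1 (θ v)) (l v))) → (∀ v, TauA (θ v) (gam v) (A v)) →
      (∀ v, Rlx κ c (P v)) → (∀ v, Rlx κ c (A v)) → (∀ v, 0 ≤ (A v).ell) →
      (∀ v, R1 * (A v).ell ≤ (P v).ell) → (∀ v w, v < w → R1 * (P v).ell ≤ (A w).ell) → False := by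
  classical
  obtain ⟨γ, hγ, hst⟩ := stab_count2 M n r s hnum
  obtain ⟨R, c0, hR, hfar⟩ := far_r (2 * M) ν κ (by omega) hν γ hγ
  refine ⟨R, c0, hR, ?_⟩
  intro gs θ gc gam q β p φ l hq hr hβ hgc hgam hp hps hpl hφ hm hirr hθ P0 A hL hT hRP hRA hA0 h1 h2
  -- the 2 M pointed curves
  obtain ⟨P, hcv, han⟩ : ∃ P : Fin (2 * M) → Ptd ν, (∀ v, P (cv v) = P0 (Fin.rev v)) ∧
      ∀ v, P (an v) = A (Fin.rev v) := by
    refine ⟨fun v => if v.val % 2 = 0 then
      P0 (Fin.rev ⟨v.val / 2, by have := v.isLt; omega⟩) else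
      A (Fin.rev ⟨v.val / 2, by have := v.isLt; omega⟩), fun v => ?_, fun v => ?_⟩
    · have h1 : (cv v).val % 2 = 0 := by simp only [cv]; omega
      have h2 : (⟨(cv v).val / 2, by have := (cv v).isLt; omega⟩ : Fin M) = v :=
        Fin.ext (by simp only [cv]; omega)
      simp only [if_pos h1, h2]
    · have h1 : ¬ (an v).val % 2 = 0 := by simp only [an]; omega
      have h2 : (⟨(an v).val / 2, by have := (an v).isLt; omega⟩ : Fin M) = v :=
        Fin.ext (by simp only [an]; omega)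
      simp only [if_neg h1, h2]
  obtain ⟨PP, hStb, hnear, hcard⟩ := hst ν P (fun v => gs (Fin.rev v)) (fun v => θ (Fin.rev v))
    (fun v => gc (Fin.rev v)) (fun v => gam (Fin.rev v)) q β (fun v => p (Fin.rev v))
    (fun v => φ (Fin.rev v)) (fun v => l (Fin.rev v)) hq hr hβ (fun v => hgc _) (fun v => hgam _)
    (fun v => hp _) (fun v => hps _) (fun v => hpl _) (fun v => hφ _) (fun v => hm _)
    (fun v => hirr _) (fun v => hθ _) (fun v => by rw [hcv]; exact hL _)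
    (fun v => by rw [han]; exact hT _)
  refine hfar P PP hStb hnear hcard (fun v => ?_) ?_
  · rcases exists_cv_an v with ⟨w, rfl⟩ | ⟨w, rfl⟩
    · rw [hcv]
      exact hRP _
    · rw [han]
      exact hRA _
  · exact order_aux hR (fun v => (P0 v).ell) (fun v => (A v).ell) hA0 h1 h2 (fun v => (P v).ell)
      (fun v => by simp only [hcv]) (fun v => by simp only [han])

end Pool.Agent.H97.TU
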