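import Mathlib

/-! # [H97 TU SEQ] Choice of a lacunary sequence -/

namespace Pool.Agent.H97.TU

/-- a lacunary sequence in a set with unbounded first size -/
theorem exists_lac {D : Type} (α β : D → ℝ) (hαβ : ∀ d, α d ≤ β d) (h0 : ∀ d, 0 ≤ β d)
    (hunb : ∀ x : ℝ, ∃ d, x ≤ α d) (R1 : ℝ) (hR1 : 1 ≤ R1) :
    ∃ s : ℕ → D, ∀ v w, v < w → R1 * β (s v) ≤ α (s w) := by
  choose f hf using hunb
  obtain ⟨d0, -⟩ := (⟨f 0, trivial⟩ : ∃ _ : D, True)
  obtain ⟨s, hs0, hs⟩ : ∃ s : ℕ → D, s 0 = d0 ∧ ∀ n, s (n + 1) = f (R1 * β (s n)) :=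
    ⟨fun n => Nat.rec d0 (fun _ d => f (R1 * β d)) n, rfl, fun n => rfl⟩
  have hstep : ∀ n, R1 * β (s n) ≤ α (s (n + 1)) := fun n => by
    rw [hs n]
    exact hf _
  have hmono : ∀ n, β (s n) ≤ β (s (n + 1)) := fun n =>
    (le_mul_of_one_le_left (h0 _) hR1).trans ((hstep n).trans (hαβ _))
  have hmono' : Monotone fun n => β (s n) := monotone_nat_of_le_succ hmono
  refine ⟨s, fun v w hvw => ?_⟩
  obtain ⟨k, rfl⟩ : ∃ k, w = k + 1 := ⟨w - 1, by omega⟩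
  exact (mul_le_mul_of_nonneg_left (hmono' (by omega : v ≤ k)) (by linarith)).trans (hstep k)

/-- pigeonhole: one of finitely many labels occurs above every bound -/
theorem exists_label {n : ℕ} (p : Fin n → ℕ → Prop) (h : ∀ A : ℕ, ∃ a, A ≤ a ∧ ∃ l, p l a) :
    ∃ l, ∀ A : ℕ, ∃ a, A ≤ a ∧ p l a := by
  by_contra hcon
  push Not at hcon
  choose A hA using hcon
  obtain ⟨a, ha, l, hl⟩ := h (∑ l, A l)
  exact hA l a ((Finset.single_le_sum (f := A) (fun _ _ => Nat.zero_le _)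
    (Finset.mem_univ l)).trans ha) hl

end Pool.Agent.H97.TU
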