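import Pool.Agent.H97.TU.RLB
import Pool.Agent.H97.FB.ANV
import Pool.Agent.H97.FB.THA

/-! # [H97 TU RLC] A real root of the fibre is near a real root of the centre -/

namespace Pool.Agent.H97.TU

open Finset Polynomial Pool.Agent.H72.ES Pool.Agent.H87.SA Pool.Agent.H87.SA2 Pool.Agent.H87.AX
  Pool.Agent.H8.AW Pool.Agent.H52.AC Pool.Agent.H97.NW Pool.Agent.H34.AC Pool.Agent.H97.FB
  Pool.Agent.H97.FC

theorem fam_big (n m : ℕ) {B : ℕ} {f : ℤ[X][X]} (Fm : FamB n m B f) {a : ℕ}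
    (ha : B ^ (3 * n.factorial) ≤ a) : 4 * Fm.pd.R ≤ XA Fm.pd a := by
  have hB2 := Fm.B2
  have hBr : (2 : ℝ) ≤ B := by exact_mod_cast hB2
  have har : (0 : ℝ) ≤ a := Nat.cast_nonneg a
  have he1 := Fm.pd.e_pos
  have he0 : Fm.pd.e ≠ 0 := by omega
  have hq1 : (1 : ℝ) ≤ Fm.pd.q := by exact_mod_cast Fm.pd.q_pos
  have hroot : (B : ℝ) ^ 3 ≤ (a : ℝ) ^ ((1 : ℝ) / Fm.pd.e) := by
    have h1 : ((B : ℝ) ^ 3) ^ Fm.pd.e ≤ a := by
      have h2 : (B ^ 3) ^ Fm.pd.e ≤ a := by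
        rw [← pow_mul]
        exact (Nat.pow_le_pow_right (by omega) (Nat.mul_le_mul_left 3 Fm.e_le)).trans ha
      exact_mod_cast h2
    have h3 := Real.rpow_le_rpow (by positivity) h1 (by positivity : (0 : ℝ) ≤ (1 : ℝ) / Fm.pd.e)
    rw [one_div, Real.pow_rpow_inv_natCast (by positivity) he0] at h3
    rw [one_div]
    exact h3
  have hX0 : (B : ℝ) ^ 3 ≤ XA Fm.pd a := by
    unfold XA
    have h1 : 0 ≤ (a : ℝ) ^ ((1 : ℝ) / Fm.pd.e) := Real.rpow_nonneg har _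
    nlinarith
  have hBB : 4 * (B : ℝ) ≤ (B : ℝ) ^ 3 := by nlinarith [mul_self_nonneg ((B : ℝ) - 2)]
  have := Fm.R_le
  linarith

theorem fam_real (n m : ℕ) : ∃ C : ℕ, ∀ (B : ℕ) (f : ℤ[X][X]) (Fm : FamB n m B f) (a : ℕ),
    B ^ C ≤ a → ∀ l, starRingEnd ℂ (thA Fm.pd m a l) = thA Fm.pd m a l →
    starRingEnd ℂ (PowerSeries.coeff 0 (Fm.pd.x l)) = PowerSeries.coeff 0 (Fm.pd.x l) := by
  obtain ⟨CT, hTR⟩ := thA_rts n m
  refine ⟨CT + 3 * n.factorial, fun B f Fm a ha l hl => ?_⟩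
  have hB2 := Fm.B2
  have h1 : B ^ CT ≤ a := (Nat.pow_le_pow_right (by omega) (by omega)).trans ha
  have h2 : B ^ (3 * n.factorial) ≤ a := (Nat.pow_le_pow_right (by omega) (by omega)).trans ha
  have ha1 : 1 ≤ a := (Nat.one_le_pow _ _ (by omega)).trans ha
  obtain ⟨-, hinj⟩ := hTR B f Fm a h1
  have hXA := fam_big n m Fm h2
  have hX0 := anv_XA_pos Fm.pd ha1
  obtain ⟨j, hj⟩ := perm_of Fm.pd (PowerSeries.map (starRingEnd ℂ)) (tq_conj' _ _) l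
  have h3 : thA Fm.pd m a j = starRingEnd ℂ (thA Fm.pd m a l) := by
    unfold thA
    rw [evC_eq_evz (one_div_pos.2 hX0).le (anv_grA Fm.pd ha1 hXA j),
      evC_eq_evz (one_div_pos.2 hX0).le (anv_grA Fm.pd ha1 hXA l), map_mul, map_pow,
      Complex.conj_natCast]
    congr 1
    have h4 := evT_conj ((1 / XA Fm.pd a : ℝ) : ℂ) (Fm.pd.x l)
    rw [Complex.conj_ofReal, hj] at h4
    exact h4
  rw [hl] at h3
  have h4 : j = l := hinj h3
  have h5 := congrArg (PowerSeries.coeff 0) hj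
  rw [PowerSeries.coeff_map, h4] at h5
  exact h5

end Pool.Agent.H97.TU
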