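import Pool.Agent.H97.TU.Defs

/-! # [H97 TU CEN] The centre polynomial

`cenU_monic`: as `mo_monic` in `Pool/Agent/H97/FB/MON.lean` (over `ℤ[X]` instead of `ℤ[X][X]`; generalise the private lemma `mo_dlt`). `cenU_rel`: as `mo_rel` there: `cenU(l Z) = l^(n-1) g(Z)`, `l = g_n` (`l^n Z^n = l^(n-1) l Z^n`, `g_i l^(n-1-i) l^i = g_i l^(n-1)`, `1 ≤ n`; `g = ∑_(i ≤ n) g_i X^i`, `as_sum_range_C_mul_X_pow' `).
`cenU_rts`: `g.map ℂ` is squarefree (separable over `ℚ`: `PerfectField.separable_iff_squarefree`, `Separable.map`), so `cenU.map ℂ = l^(n-1) g(Z/l)` is separable; it splits over `ℂ`, monic of degree `n`; enumerate the roots as in `exists_rts` of `Pool/Agent/H97/FC/GDF.lean` (there for irreducible polynomials; the same proof for separable ones). -/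

namespace Pool.Agent.H97.TU

open Finset Polynomial Pool.Agent.H72.ES Pool.Agent.H87.SA Pool.Agent.H87.SA2 Pool.Agent.H87.AX
  Pool.Agent.H8.AW Pool.Agent.H52.AC Pool.Agent.H97.NW Pool.Agent.H34.AC Pool.Agent.H97.FB
  Pool.Agent.H97.FC

private theorem cenU_dlt (n : ℕ) (g : ℤ[X]) :
    (∑ i ∈ range n, C (g.coeff i * g.coeff n ^ (n - 1 - i)) * X ^ i : ℤ[X]).degree < n := by
  refine (degree_sum_le _ _).trans_lt ?_
  rw [Finset.sup_lt_iff (by exact_mod_cast WithBot.bot_lt_coe n)]
  intro i hi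
  refine (degree_C_mul_X_pow_le _ _).trans_lt ?_
  exact_mod_cast mem_range.1 hi

theorem cenU_monic {n : ℕ} (hn : 1 ≤ n) (g : ℤ[X]) :
    (cenU n g).Monic ∧ (cenU n g).natDegree = n := by
  refine ⟨monic_X_pow_add (cenU_dlt n g), ?_⟩
  have h1 : (cenU n g).degree = n := by
    unfold cenU
    rw [degree_add_eq_left_of_degree_lt, degree_X_pow]
    rw [degree_X_pow]
    exact cenU_dlt n g
  exact natDegree_eq_of_degree_eq_some h1

theorem cenU_rel {n : ℕ} (hn : 1 ≤ n) {g : ℤ[X]} (hd : g.natDegree = n) :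
    (cenU n g).comp (C (g.coeff n) * X) = C (g.coeff n ^ (n - 1)) * g := by
  have h1 : g = ∑ i ∈ range (n + 1), C (g.coeff i) * X ^ i := by
    conv_lhs => rw [g.as_sum_range_C_mul_X_pow, hd]
  unfold cenU
  rw [add_comp, X_pow_comp, Polynomial.sum_comp, mul_pow]
  have hR : C (g.coeff n ^ (n - 1)) * g =
      C (g.coeff n ^ (n - 1)) * (∑ i ∈ range (n + 1), C (g.coeff i) * X ^ i) :=
    congrArg (fun p => C (g.coeff n ^ (n - 1)) * p) h1
  rw [hR, mul_sum, sum_range_succ, add_comm (∑ i ∈ range n, _)]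
  congr 1
  · have h2 : n = (n - 1) + 1 := by omega
    have h3 : (C (g.coeff n) : ℤ[X]) ^ n = C (g.coeff n ^ (n - 1)) * C (g.coeff n) := by
      conv_lhs => rw [h2, pow_succ, ← C_pow]
      rw [← h2]
    rw [h3, mul_assoc]
  · refine sum_congr rfl fun i hi => ?_
    have hi' := mem_range.1 hi
    rw [mul_comp, C_comp, X_pow_comp, mul_pow, ← mul_assoc, ← mul_assoc, ← C_pow, ← C_mul, ← C_mul]
    congr 2
    have h3 : n - 1 = (n - 1 - i) + i := by omega
    conv_rhs => rw [h3, pow_add]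
    ring

theorem cenU_rts {n : ℕ} (hn : 1 ≤ n) {g : ℤ[X]} (hd : g.natDegree = n)
    (hsq : Squarefree (g.map (Int.castRingHom ℚ))) : ∃ γ : Fin n → ℂ, Rts (cenU n g) γ := by
  classical
  obtain ⟨hm, hnd⟩ := cenU_monic hn g
  have hl : g.coeff n ≠ 0 := by
    have h1 : g.leadingCoeff ≠ 0 := by
      rw [Ne, leadingCoeff_eq_zero]
      rintro rfl
      simp at hd
      omega
    rwa [leadingCoeff, hd] at h1
  have hlc : ((g.coeff n : ℤ) : ℂ) ≠ 0 := by exact_mod_cast hl
  have hc : g.map (Int.castRingHom ℂ) = (g.map (Int.castRingHom ℚ)).map (algebraMap ℚ ℂ) := by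
    rw [Polynomial.map_map]
    congr 1
  have hsep : (g.map (Int.castRingHom ℂ)).Separable := by
    rw [hc]
    exact (PerfectField.separable_iff_squarefree.2 hsq).map
  have hrel : ((cenU n g).map (Int.castRingHom ℂ)).comp (C ((g.coeff n : ℤ) : ℂ) * X) =
      C (((g.coeff n : ℤ) : ℂ) ^ (n - 1)) * g.map (Int.castRingHom ℂ) := by
    have h := congrArg (fun p => p.map (Int.castRingHom ℂ)) (cenU_rel hn hd)
    simp only [Polynomial.map_mul, map_comp, Polynomial.map_C, map_X] at h
    rw [map_pow] at h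
    exact h
  have hm' : ((cenU n g).map (Int.castRingHom ℂ)).Monic := hm.map _
  have hsp : ((cenU n g).map (Int.castRingHom ℂ)).Splits := IsAlgClosed.splits _
  have hnd2 : ((cenU n g).map (Int.castRingHom ℂ)).roots.Nodup := by
    rw [Multiset.nodup_iff_count_le_one]
    intro z
    rw [count_roots]
    by_contra hcon
    have h1 : 1 < ((cenU n g).map (Int.castRingHom ℂ)).rootMultiplicity z := by omega
    rw [one_lt_rootMultiplicity_iff_isRoot hm'.ne_zero] at h1
    obtain ⟨h2, h3⟩ := h1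
    have hz : ((g.coeff n : ℤ) : ℂ) * (z / ((g.coeff n : ℤ) : ℂ)) = z := by
      field_simp
    have e1 := congrArg (fun p => p.eval (z / ((g.coeff n : ℤ) : ℂ))) hrel
    simp only [eval_comp, eval_mul, eval_C, eval_X, hz] at e1
    have e2 := congrArg (fun p => (derivative p).eval (z / ((g.coeff n : ℤ) : ℂ))) hrel
    simp only [derivative_comp, derivative_mul, derivative_C, derivative_X, eval_comp, eval_mul,
      eval_C, eval_X, eval_add, eval_zero, eval_one, zero_mul, zero_add, mul_one, hz] at e2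
    rw [h2.eq_zero] at e1
    rw [h3.eq_zero, mul_zero] at e2
    have hp : ((g.coeff n : ℤ) : ℂ) ^ (n - 1) ≠ 0 := pow_ne_zero _ hlc
    have f1 : (g.map (Int.castRingHom ℂ)).eval (z / ((g.coeff n : ℤ) : ℂ)) = 0 :=
      (mul_eq_zero.1 e1.symm).resolve_left hp
    have f2 : (derivative (g.map (Int.castRingHom ℂ))).eval (z / ((g.coeff n : ℤ) : ℂ)) = 0 :=
      (mul_eq_zero.1 e2.symm).resolve_left hp
    have h4 := hsep.eval₂_derivative_ne_zero (RingHom.id ℂ) (x := z / ((g.coeff n : ℤ) : ℂ))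
      (by rw [eval₂_id]; exact f1)
    exact h4 (by rw [eval₂_id]; exact f2)
  have hprod := hsp.eq_prod_roots_of_monic hm'
  have hcard : ((cenU n g).map (Int.castRingHom ℂ)).roots.card = n := by
    rw [← hsp.natDegree_eq_card_roots, hm.natDegree_map, hnd]
  have hL : ∃ L : List ℂ, (L : Multiset ℂ) = ((cenU n g).map (Int.castRingHom ℂ)).roots :=
    Quot.exists_rep _
  obtain ⟨L, hL⟩ := hL
  have hlen : L.length = n := by
    rw [← hcard, ← hL]
    rfl
  refine ⟨fun i => L.get (Fin.cast hlen.symm i), ?_, ?_⟩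
  · rw [hprod, ← hL, Multiset.map_coe, Multiset.prod_coe]
    have h1 := Fintype.prod_equiv (finCongr hlen.symm)
      (fun i => X - C (L.get (Fin.cast hlen.symm i)))
      (fun i => X - C (L.get i)) (fun i => rfl)
    rw [h1]
    exact (Fin.prod_univ_fun_getElem L fun a => X - C a).symm
  · intro i j h
    have h2 : L.Nodup := by
      rw [← Multiset.coe_nodup, hL]
      exact hnd2
    have h3 := (List.Nodup.get_inj_iff h2).1 h
    exact Fin.cast_injective _ h3

end Pool.Agent.H97.TU
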