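import Pool.Agent.H97.TU.Defs

/-!
# MP_821da1_nt, THEOREM U+ (idea helper98): definitions

The centre may vary with the fibre; what is common is a number field `ℚ[X]/q` contained in the fields of
the near roots of the centres. Families `f ∈ ℤ[t][Z]` of degree `m` in `t` (idea helper98), the centre `g`
is the coefficient of `t^m`; `f = t g + h` is the case `m = 1`.
`Num M n r s`: `(2M)^(2M) r s^M < (2M)! (r n)^M`.
`BadD n m ν c s R1 q β`: a bad fibre: a family `f` in normal form (`FibM`) whose constant terms `γ u` are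
the roots of the monic `gc`; the near label `l`; `γ l` is a root of `p`, `deg p ≤ s`, and `φ(γ l) = β`,
where `β` is a root of `q`; a point `P` with the label `l`, much larger than the parameter `a`.
-/

namespace Pool.Agent.H97.TU

open Finset Polynomial Pool.Agent.H72.ES Pool.Agent.H87.SA Pool.Agent.H87.SA2 Pool.Agent.H87.AX
  Pool.Agent.H8.AW Pool.Agent.H52.AC Pool.Agent.H97.NW Pool.Agent.H34.AC Pool.Agent.H97.FB
  Pool.Agent.H97.FC

/-- the numerical condition -/
def Num (M n r s : ℕ) : Prop :=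
  (2 * M) ^ (2 * M) * r * s ^ M < (2 * M).factorial * (r * n) ^ M

/-- the coefficient of `t^m`, a polynomial in `Z` -/
noncomputable def ldU (m : ℕ) (f : ℤ[X][X]) : ℤ[X] :=
  ∑ i ∈ range (f.natDegree + 1), C ((f.coeff i).coeff m) * X ^ i

/-- a family in normal form with the prescribed constant terms of the branches -/
structure FibM (n m b : ℕ) (γ : Fin n → ℂ) (f : ℤ[X][X]) where
  Fm : FamB n m b f
  cen : ∀ u, PowerSeries.coeff 0 (Fm.pd.x u) = γ u

/-- a bad fibre with a marked subfield of the field of the near root of the centre -/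
structure BadD (n m ν c s : ℕ) (R1 : ℝ) (q : ℚ[X]) (β : ℂ) where
  a : ℕ
  b : ℕ
  gc : ℤ[X]
  γ : Fin n → ℂ
  f : ℤ[X][X]
  monic : gc.Monic
  rts : Rts gc γ
  Fm : FibM n m b γ f
  l : Fin n
  p : ℚ[X]
  p0 : p ≠ 0
  pd : p.natDegree ≤ s
  pl : aeval (γ l) p = 0
  φ : ℚ[X]
  φl : aeval (γ l) φ = β
  P : Ptd ν
  L : Nonempty (LbG P (v1 (thA Fm.Fm.pd m a)) l)
  irr : Irreducible ((fa f a).map (Int.castRingHom ℚ))
  ba : b ^ c ≤ a
  thr : P.Thr c
  big : R1 * Real.log a ≤ P.ell
  a1 : 1 ≤ a

end Pool.Agent.H97.TU
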