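import Pool.Agent.H97.TU.Defs2
import Pool.Agent.H97.TU.CEN

/-! # [H97 TU FI1] The constant terms: families of degree `m` in `t` in normal form

The general form of `Pool/Agent/H97/TU/FIC.lean` and `Pool/Agent/H97/TU/FIB.lean` (there `m = 1`,
`f = fU g h`); the same proofs. `g = ldU m f` (coefficient of `t^m`), `g.coeff i = (f.coeff i).coeff m`,
`g.natDegree = n`.
`fim_center`: `Fm.pd.split : (rv n m F).map (tq e q) = ∏ (X - C (x i))`, `F = mo n f`; constant coefficients: the left side has `(rv n m F).coeff i = reflect (m (n - i)) (F.coeff i)`, whose coefficient `0` is `(F.coeff i).coeff (m (n - i))`; `F.coeff n = 1`; for `i < n`: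
`F.coeff i = f_i f_n^(n-1-i)` and the coefficient of `t^(m (n-i))` is `g_i g_n^(n-1-i)` (`coeff_mul_of_natDegree_le`, `coeff_pow_of_natDegree_le`), the coefficient of `cenU n g`.
-/

namespace Pool.Agent.H97.TU

open Finset Polynomial Pool.Agent.H72.ES Pool.Agent.H87.SA Pool.Agent.H87.SA2 Pool.Agent.H87.AX
  Pool.Agent.H8.AW Pool.Agent.H52.AC Pool.Agent.H97.NW Pool.Agent.H34.AC Pool.Agent.H97.FB
  Pool.Agent.H97.FC

private theorem fi1_tq {e q : ℕ} (he : 1 ≤ e) :
    (PowerSeries.constantCoeff (R := ℂ)).comp (tq e q) =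
      (Int.castRingHom ℂ).comp (Polynomial.constantCoeff (R := ℤ)) := by
  refine Polynomial.ringHom_ext' (RingHom.ext_int _ _) ?_
  unfold tq
  simp only [RingHom.comp_apply, coe_eval₂RingHom, eval₂_X, map_pow, map_mul,
    PowerSeries.constantCoeff_C, PowerSeries.constantCoeff_X, mul_zero,
    Polynomial.constantCoeff_apply, coeff_X_zero, map_zero]
  rw [zero_pow (by omega)]

private theorem fi1_mo (n : ℕ) (F : ℤ[X][X]) {i : ℕ} (hi : i < n) :
    (mo n F).coeff i = F.coeff i * F.coeff n ^ (n - 1 - i) := by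
  unfold mo
  rw [coeff_add, coeff_X_pow, if_neg (by omega), zero_add, finsetSum_coeff]
  simp only [coeff_C_mul, coeff_X_pow, mul_ite, mul_one, mul_zero]
  rw [Finset.sum_ite_eq, if_pos (mem_range.2 hi)]

private theorem fi1_mo_n (n : ℕ) (F : ℤ[X][X]) : (mo n F).coeff n = 1 := by
  unfold mo
  rw [coeff_add, coeff_X_pow, if_pos rfl, finsetSum_coeff]
  simp only [coeff_C_mul, coeff_X_pow, mul_ite, mul_one, mul_zero]
  rw [Finset.sum_ite_eq, if_neg (by simp), add_zero]

private theorem fi1_ld {n m : ℕ} {f : ℤ[X][X]} (hd : f.natDegree = n) {i : ℕ} (hi : i ≤ n) :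
    (ldU m f).coeff i = (f.coeff i).coeff m := by
  unfold ldU
  rw [finsetSum_coeff, hd]
  simp only [coeff_C_mul, coeff_X_pow, mul_ite, mul_one, mul_zero]
  rw [Finset.sum_ite_eq, if_pos (mem_range.2 (by omega))]

private theorem fi1_rv {n m : ℕ} {f : ℤ[X][X]} (hd : f.natDegree = n)
    (hm : ∀ i, (f.coeff i).natDegree ≤ m) :
    (rv n m (mo n f)).map (Polynomial.constantCoeff (R := ℤ)) = cenU n (ldU m f) := by
  have hcoef : ∀ i, i < n → ((mo n f).coeff i).coeff (m * (n - i)) =
      (ldU m f).coeff i * (ldU m f).coeff n ^ (n - 1 - i) := by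
    intro i hi
    rw [fi1_mo n _ hi, fi1_ld hd hi.le, fi1_ld hd le_rfl]
    have h0 : n - i = 1 + (n - 1 - i) := by omega
    have h1 : m * (n - i) = m + (n - 1 - i) * m := by
      rw [h0]
      ring
    rw [h1, coeff_mul_add_eq_of_natDegree_le (hm i) (natDegree_pow_le_of_le _ (hm n)),
      coeff_pow_of_natDegree_le (hm n)]
  unfold rv cenU
  rw [Polynomial.map_sum, Finset.sum_range_succ, add_comm]
  congr 1
  · rw [Polynomial.map_mul, Polynomial.map_pow, map_X, map_C, Nat.sub_self, mul_zero,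
      fi1_mo_n]
    have : (Polynomial.constantCoeff (R := ℤ)) (reflect 0 1) = 1 := by
      rw [Polynomial.constantCoeff_apply, coeff_reflect]
      simp
    rw [this, C_1, one_mul]
  · refine Finset.sum_congr rfl fun i hi => ?_
    have hi' := mem_range.1 hi
    rw [Polynomial.map_mul, Polynomial.map_pow, map_X, map_C, ← hcoef i hi',
      Polynomial.constantCoeff_apply, coeff_reflect, revAt_zero]

theorem fim_center {n m b : ℕ} {f : ℤ[X][X]} (hn : 1 ≤ n) (hd : f.natDegree = n)
    (hm : ∀ i, (f.coeff i).natDegree ≤ m) (Fm : FamB n m b (mo n f)) :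
    (cenU n (ldU m f)).map (Int.castRingHom ℂ) =
      ∏ i, (X - C (PowerSeries.coeff 0 (Fm.pd.x i))) := by
  have h1 := congrArg (Polynomial.map (PowerSeries.constantCoeff (R := ℂ))) Fm.pd.split
  rw [Polynomial.map_map, fi1_tq Fm.pd.e_pos, ← Polynomial.map_map, fi1_rv hd hm,
    Polynomial.map_prod] at h1
  rw [h1]
  refine Finset.prod_congr rfl fun i _ => ?_
  rw [Polynomial.map_sub, map_X, map_C, PowerSeries.coeff_zero_eq_constantCoeff]

end Pool.Agent.H97.TU
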