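import Pool.Agent.H97.TU.Defs2
import Pool.Agent.H97.TU.FI1

/-! # [H97 TU FIM] Families of degree `m` in `t` in normal form

The general form of `Pool/Agent/H97/TU/FIC.lean` and `Pool/Agent/H97/TU/FIB.lean` (there `m = 1`,
`f = fU g h`); the same proofs. `g = ldU m f` (coefficient of `t^m`), `g.coeff i = (f.coeff i).coeff m`,
`g.natDegree = n`.
`fim_center` in `FI1.lean`.
`exists_fibM`: `exists_famB n m` gives `c0`; `γ` from `cenU_rts`; `mo_monic`, `mo_deg`, `mo_le` (`B1 = ((m+1) B)^n ≤ B^((m+2) n)`), `mo_irr`; reorder the branches as in `FIB`. -/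

namespace Pool.Agent.H97.TU

open Finset Polynomial Pool.Agent.H72.ES Pool.Agent.H87.SA Pool.Agent.H87.SA2 Pool.Agent.H87.AX
  Pool.Agent.H8.AW Pool.Agent.H52.AC Pool.Agent.H97.NW Pool.Agent.H34.AC Pool.Agent.H97.FB
  Pool.Agent.H97.FC

private theorem fim_reorder {n : ℕ} {γ δ : Fin n → ℂ} (hγ : Function.Injective γ)
    (h : ∏ i, (X - C (γ i)) = ∏ i, (X - C (δ i))) : ∃ π : Equiv.Perm (Fin n), ∀ u, δ (π u) = γ u := by
  have h1 : ∀ ε : Fin n → ℂ, (∏ i, (X - C (ε i))).roots = univ.val.map ε := by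
    intro ε
    have : ∏ i, (X - C (ε i)) = ((univ.val.map ε).map fun a => X - C a).prod := by
      rw [Multiset.map_map]
      rfl
    rw [this, roots_multiset_prod_X_sub_C]
  have h2 : (univ : Finset (Fin n)).val.map γ = univ.val.map δ := by
    rw [← h1, ← h1, h]
  have h3 : ∀ u, ∃ i, δ i = γ u := by
    intro u
    have : γ u ∈ (univ : Finset (Fin n)).val.map δ := by
      rw [← h2]
      exact Multiset.mem_map_of_mem _ (Finset.mem_univ u)
    obtain ⟨i, -, hi⟩ := Multiset.mem_map.1 this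
    exact ⟨i, hi⟩
  choose π hπ using h3
  have hinj : Function.Injective π := by
    intro u v huv
    apply hγ
    rw [← hπ u, ← hπ v, huv]
  exact ⟨Equiv.ofBijective π (Finite.injective_iff_bijective.1 hinj), fun u => hπ u⟩

private noncomputable def fim_pd {f : ℤ[X][X]} {n : ℕ} (pd : PData f n) (π : Equiv.Perm (Fin n)) :
    PData f n :=
  { pd with
    x := fun u => pd.x (π u)
    x_inj := pd.x_inj.comp π.injective
    split := by rw [pd.split]; exact (Equiv.prod_comp π fun i => (X - C (pd.x i))).symm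
    integral := fun i k => pd.integral (π i) k
    growth := fun i k => pd.growth (π i) k }

private noncomputable def fim_Fm {n m b : ℕ} {f : ℤ[X][X]} (Fm : FamB n m b f)
    (π : Equiv.Perm (Fin n)) : FamB n m b f :=
  { Fm with
    pd := fim_pd Fm.pd π
    e_le := Fm.e_le
    q_le := Fm.q_le
    R_le := Fm.R_le }

theorem exists_fibM (n m : ℕ) (hn : 2 ≤ n) (hm : 1 ≤ m) : ∃ c : ℕ, ∀ f : ℤ[X][X],
    f.natDegree = n → (∀ i, (f.coeff i).natDegree ≤ m) → (ldU m f).natDegree = n →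
    Squarefree ((ldU m f).map (Int.castRingHom ℚ)) →
    Irreducible (f.map (mapRingHom (Int.castRingHom ℂ))) →
    ∃ γ : Fin n → ℂ, (cenU n (ldU m f)).Monic ∧ Rts (cenU n (ldU m f)) γ ∧
      ∀ B : ℕ, 2 ≤ B → (∀ i j, |(f.coeff i).coeff j| ≤ (B : ℤ)) →
        ∃ b : ℕ, b ≤ B ^ c ∧ Nonempty (FibM n m b γ (mo n f)) := by
  obtain ⟨c0, hc0⟩ := exists_famB n m hn hm
  have hn1 : 1 ≤ n := by omega
  refine ⟨(m + 2) * n * c0, fun f hf hfm hg hsq hirr => ?_⟩
  obtain ⟨γ, hγ⟩ := cenU_rts hn1 hg hsq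
  refine ⟨γ, (cenU_monic hn1 _).1, hγ, ?_⟩
  intro B hB hfB
  have hB1 : 1 ≤ B := by omega
  obtain ⟨hmon, hmdeg⟩ := mo_monic hn1 f
  have hB12 : 2 ≤ ((m + 1) * B) ^ n := by
    refine le_trans ?_ (Nat.le_self_pow (by omega) _)
    calc 2 ≤ B := hB
      _ = 1 * B := (one_mul B).symm
      _ ≤ (m + 1) * B := Nat.mul_le_mul_right _ (by omega)
  obtain ⟨b, hb, ⟨Fm⟩⟩ := hc0 (mo n f) (((m + 1) * B) ^ n) hB12 hmon hmdeg
    (mo_deg hn1 hfm) (mo_le hn1 hB1 hfm hfB) (mo_irr hn1 hf hirr)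
  refine ⟨b, ?_, ?_⟩
  · refine hb.trans ?_
    have h0 : m + 1 ≤ B ^ (m + 1) :=
      (Nat.lt_two_pow_self (n := m + 1)).le.trans (Nat.pow_le_pow_left hB _)
    have h1 : (m + 1) * B ≤ B ^ (m + 2) := by
      rw [pow_succ B (m + 1)]
      exact Nat.mul_le_mul_right _ h0
    calc (((m + 1) * B) ^ n) ^ c0 ≤ ((B ^ (m + 2)) ^ n) ^ c0 :=
          Nat.pow_le_pow_left (Nat.pow_le_pow_left h1 _) _
      _ = B ^ ((m + 2) * n * c0) := by rw [← pow_mul, ← pow_mul, mul_assoc]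
  · have hcen := fim_center hn1 hf hfm Fm
    rw [hγ.1] at hcen
    obtain ⟨π, hπ⟩ := fim_reorder hγ.2 hcen
    exact ⟨⟨fim_Fm Fm π, fun u => hπ u⟩⟩

end Pool.Agent.H97.TU
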