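import Pool.Agent.H97.TU.Defs
import Pool.Agent.H8.AF.Num

/-! # [H97 TU AC1] One field: all curves carrying a root of `G`

`k = AdjoinRoot (G.map (Int.castRingHom ℚ))`, a number field of degree `G.natDegree ≥ 3` (`Fact (Irreducible ..)`; `NumberField` from `CharZero` and finite dimension, `PowerBasis`, `AdjoinRoot.powerBasis`). `all_curves k hk d hd` (`Pool/Agent/H8/AF/Fin.lean`) gives the finite set `S`. `INg G F` implies its hypothesis: a root `θ : K` of `G` gives `k →+* K` (`AdjoinRoot.lift (algebraMap ℚ K) θ _`).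
`K = (1 + ∑ M ∈ S, M ^ (14000 d^8))`: in the first case `max ≤ H^c ≤ K H^c`, in the second `max ≤ M^(..) ≤ K`. -/

namespace Pool.Agent.H97.TU

open Finset Polynomial Pool.Agent.H72.ES Pool.Agent.H87.SA Pool.Agent.H87.SA2 Pool.Agent.H87.AX
  Pool.Agent.H8.AW Pool.Agent.H52.AC Pool.Agent.H97.NW Pool.Agent.H34.AC Pool.Agent.H97.FB
  Pool.Agent.H97.FC

theorem fixed_field (d : ℕ) (hd : 3 ≤ d) : ∃ c : ℕ, ∀ G : ℤ[X],
    Irreducible (G.map (Int.castRingHom ℚ)) → 3 ≤ G.natDegree → ∃ K : ℕ, 1 ≤ K ∧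
    ∀ F : MvPolynomial (Fin 2) ℤ, Irreducible (MvPolynomial.map (Int.castRingHom ℚ) F) →
      F.totalDegree ≤ d → INg G F → ∀ H : ℕ, 2 ≤ H → (∀ e, |F.coeff e| ≤ (H : ℤ)) →
      ∀ x y : ℤ, vl F x y = 0 → max x.natAbs y.natAbs ≤ K * H ^ c := by
  classical
  refine ⟨H8.AF.cF d, fun G hG hG3 => ?_⟩
  have : Fact (Irreducible (G.map (Int.castRingHom ℚ))) := ⟨hG⟩
  have hG0 : G.map (Int.castRingHom ℚ) ≠ 0 := hG.ne_zero
  have hfd : FiniteDimensional ℚ (AdjoinRoot (G.map (Int.castRingHom ℚ))) :=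
    (AdjoinRoot.powerBasis hG0).finite
  have : CharZero (AdjoinRoot (G.map (Int.castRingHom ℚ))) :=
    charZero_of_injective_algebraMap
      (FaithfulSMul.algebraMap_injective ℚ (AdjoinRoot (G.map (Int.castRingHom ℚ))))
  have : NumberField (AdjoinRoot (G.map (Int.castRingHom ℚ))) := { }
  have hk : 3 ≤ Module.finrank ℚ (AdjoinRoot (G.map (Int.castRingHom ℚ))) := by
    rw [(AdjoinRoot.powerBasis hG0).finrank, AdjoinRoot.powerBasis_dim,
      natDegree_map_eq_of_injective (RingHom.injective_int _)]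
    exact hG3
  obtain ⟨S, -, hS⟩ := H8.AF.all_curves (AdjoinRoot (G.map (Int.castRingHom ℚ))) hk d hd
  refine ⟨1 + ∑ M ∈ S, M ^ H8.AF.wF d, by omega, ?_⟩
  intro F hF hdeg hinf H hH2 hH x y h0
  have hI : INFR (AdjoinRoot (G.map (Int.castRingHom ℚ))) F := by
    intro K _ _ hR X' Y' hXY
    rcases hinf K hR X' Y' hXY with h1 | ⟨θ, hθ⟩
    · exact Or.inl h1
    · refine Or.inr ⟨AdjoinRoot.lift (algebraMap ℚ K) θ ?_⟩
      rw [eval₂_map]
      have h2 : (algebraMap ℚ K).comp (Int.castRingHom ℚ) = algebraMap ℤ K :=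
        RingHom.ext_int _ _
      rw [h2]
      exact hθ
  have hH1 : 1 ≤ H ^ H8.AF.cF d := Nat.one_le_pow _ _ (by omega)
  rcases hS F hF hdeg hI H hH2 hH x y h0 with h1 | ⟨M, hM, -, h2⟩
  · exact h1.trans (Nat.le_mul_of_pos_left _ (by omega))
  · have h3 : M ^ H8.AF.wF d ≤ ∑ M ∈ S, M ^ H8.AF.wF d :=
      single_le_sum (f := fun M => M ^ H8.AF.wF d) (fun _ _ => Nat.zero_le _) hM
    calc max x.natAbs y.natAbs ≤ (1 + ∑ M ∈ S, M ^ H8.AF.wF d) * 1 := by omega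
      _ ≤ _ := Nat.mul_le_mul_left _ hH1

end Pool.Agent.H97.TU
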