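import Pool.Agent.H97.TU.FUI

/-! # [H97 TU BAD] A bad fibre gives a labelled point of large size

`f = mo n (fU g h)`, `Fm : FamB n 1 b f`, `G = C a * g + h = fa (fU g h) a` (`fU_fa`), `la = g_n a + h_n ≠ 0`. `g1 = fa f a` is monic of degree `n ≥ 3` and irreducible over `ℚ` (`G` is, and `g1 (la Z) = la^(n-1) G(Z)`; `mo_fib` in `Pool/Agent/H97/FB/MON.lean` is the converse direction with the same tools: `algEquivCMulXAddC`, see also `gg_irr` in `Pool/Agent/H97/FC/GDI.lean`), `INg g1 F` (`mo_ing`), so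
`INs {g1} F`. `C = max (CT) (cR d * c * (2 d + 3), (2 d + 3) * ⌈R1⌉)`-like, `CT` from `thA_rts n 1`. `redM d hd c hc {g1} ..` gives `P`, `P.Thr c`, `max ≤ |P.x|^(2d+3)`, and with `Rts g1 (thA Fm.pd 1 a)` (`thA_rts`, `b^CT ≤ a`) the label `l`. Size: `(a H)^C < max ≤ |P.x|^(2d+3)`, take logarithms. This is the last part of `Pool/Agent/H97/FC/WNM.lean` (`windowM`), with one fibre: copy it. -/

namespace Pool.Agent.H97.TU

open Finset Polynomial Pool.Agent.H72.ES Pool.Agent.H87.SA Pool.Agent.H87.SA2 Pool.Agent.H87.AX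
  Pool.Agent.H8.AW Pool.Agent.H52.AC Pool.Agent.H97.NW Pool.Agent.H34.AC Pool.Agent.H97.FB
  Pool.Agent.H97.FC

private theorem bad_rel {n : ℕ} (hn : 1 ≤ n) {f : ℤ[X][X]} (hd : f.natDegree = n) (a : ℕ) :
    (fa (mo n f) a).comp (Polynomial.C ((f.coeff n).eval (a : ℤ)) * X) =
      Polynomial.C ((f.coeff n).eval (a : ℤ) ^ (n - 1)) * fa f a := by
  have hr : (mo n f).comp (Polynomial.C (f.coeff n) * X) =
      Polynomial.C (f.coeff n ^ (n - 1)) * f := by
    have h1 : f = ∑ i ∈ range (n + 1), Polynomial.C (f.coeff i) * X ^ i := by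
      conv_lhs => rw [f.as_sum_range_C_mul_X_pow, hd]
    unfold mo
    rw [add_comp, X_pow_comp, Polynomial.sum_comp, mul_pow]
    have hR : Polynomial.C (f.coeff n ^ (n - 1)) * f =
        Polynomial.C (f.coeff n ^ (n - 1)) *
          (∑ i ∈ range (n + 1), Polynomial.C (f.coeff i) * X ^ i) :=
      congrArg (fun p => Polynomial.C (f.coeff n ^ (n - 1)) * p) h1
    rw [hR, mul_sum, sum_range_succ, add_comm (∑ i ∈ range n, _)]
    congr 1
    · have h2 : n = (n - 1) + 1 := by omega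
      have h3 : (Polynomial.C (f.coeff n) : ℤ[X][X]) ^ n =
          Polynomial.C (f.coeff n ^ (n - 1)) * Polynomial.C (f.coeff n) := by
        conv_lhs => rw [h2, pow_succ, ← C_pow]
        rw [← h2]
      rw [h3, mul_assoc]
    · refine sum_congr rfl fun i hi => ?_
      have hi' := mem_range.1 hi
      rw [mul_comp, C_comp, X_pow_comp, mul_pow, ← mul_assoc, ← mul_assoc, ← C_pow, ← C_mul,
        ← C_mul]
      congr 2
      have h3 : n - 1 = (n - 1 - i) + i := by omega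
      conv_rhs => rw [h3, pow_add]
      ring
  have h2 := congrArg (fun p => p.map (evalRingHom (a : ℤ))) hr
  simp only [Polynomial.map_mul, map_comp, Polynomial.map_C, map_X, map_pow, coe_evalRingHom] at h2
  simpa [fa] using h2

private theorem bad_irr {n : ℕ} (hn : 1 ≤ n) {f : ℤ[X][X]} (hd : f.natDegree = n) {a : ℕ}
    (ha : (f.coeff n).eval (a : ℤ) ≠ 0)
    (h : Irreducible ((fa f a).map (Int.castRingHom ℚ))) :
    Irreducible ((fa (mo n f) a).map (Int.castRingHom ℚ)) := by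
  obtain ⟨c, hc⟩ : ∃ c : ℚ, c = (Int.castRingHom ℚ) ((f.coeff n).eval (a : ℤ)) := ⟨_, rfl⟩
  have hl : c ≠ 0 := by
    rw [hc, eq_intCast]
    exact_mod_cast ha
  have h2 := congrArg (fun p => p.map (Int.castRingHom ℚ)) (bad_rel hn hd a)
  simp only [Polynomial.map_mul, map_comp, Polynomial.map_C, map_X] at h2
  rw [map_pow, ← hc] at h2
  let _ : Invertible c := invertibleOfNonzero hl
  have h3 : Irreducible (((fa (mo n f) a).map (Int.castRingHom ℚ)).comp
      (Polynomial.C c * X)) := by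
    rw [h2]
    exact (irreducible_isUnit_mul
      (isUnit_C.2 (isUnit_iff_ne_zero.2 (pow_ne_zero _ hl)))).2 h
  have h5 : (algEquivCMulXAddC c (0 : ℚ)).toMulEquiv
      ((fa (mo n f) a).map (Int.castRingHom ℚ)) =
      ((fa (mo n f) a).map (Int.castRingHom ℚ)).comp (Polynomial.C c * X) := by
    show (algEquivCMulXAddC c (0 : ℚ)) ((fa (mo n f) a).map (Int.castRingHom ℚ)) = _
    rw [algEquivCMulXAddC_apply, map_zero, add_zero, comp_eq_aeval]
  rw [← h5] at h3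
  exact (MulEquiv.irreducible_iff (algEquivCMulXAddC c (0 : ℚ)).toMulEquiv).1 h3

private theorem bad_pow {x X0 C C' : ℕ} (h : x ^ C ≤ X0) (hC : C' ≤ C) (hX : 1 ≤ X0) :
    x ^ C' ≤ X0 := by
  rcases Nat.eq_zero_or_pos x with h0 | h0
  · subst h0
    rcases Nat.eq_zero_or_pos C' with h1 | h1
    · rw [h1, pow_zero]
      exact hX
    · rw [zero_pow (by omega)]
      omega
  · exact (Nat.pow_le_pow_right h0 hC).trans h

theorem badU (n d : ℕ) (hn : 3 ≤ n) (hd : 3 ≤ d) (c : ℕ) (hc : cA (d * (d + 1)) ≤ c) (R1 : ℝ) :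
    ∃ C : ℕ, 1 ≤ C ∧ ∀ (g h : ℤ[X]) (b a : ℕ), g.natDegree = n → h.natDegree ≤ n →
      g.coeff n * a + h.coeff n ≠ 0 → ∀ Fm : FamB n 1 b (mo n (fU g h)), b ^ C ≤ a →
      Irreducible ((Polynomial.C (a : ℤ) * g + h).map (Int.castRingHom ℚ)) →
      ∀ F : MvPolynomial (Fin 2) ℤ, Irreducible (MvPolynomial.map (Int.castRingHom ℚ) F) →
      F.totalDegree ≤ d → INg (Polynomial.C (a : ℤ) * g + h) F → ∀ H : ℕ, 2 ≤ H →
      (∀ e, |F.coeff e| ≤ (H : ℤ)) → ∀ x y : ℤ, vl F x y = 0 →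
      (a * H) ^ C < max x.natAbs y.natAbs →
      Irreducible ((fa (mo n (fU g h)) a).map (Int.castRingHom ℚ)) ∧
      ∃ (l : Fin n) (P : Ptd (d * (d + 1))), Nonempty (LbG P (v1 (thA Fm.pd 1 a)) l) ∧
        P.Thr c ∧ R1 * Real.log a ≤ P.ell := by
  obtain ⟨CT, hTR⟩ := thA_rts n 1
  obtain ⟨C1, hC1⟩ : ∃ C1 : ℕ, C1 = ⌈R1⌉₊ := ⟨_, rfl⟩
  have hR1 : R1 ≤ C1 := by
    rw [hC1]
    exact Nat.le_ceil _
  obtain ⟨C, hCd⟩ : ∃ C, C = CT + cR d * c * (2 * d + 3) + (2 * d + 3) * C1 + 1 := ⟨_, rfl⟩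
  have hCc : CT ≤ C := by rw [hCd]; omega
  have hCe : cR d * c * (2 * d + 3) ≤ C := by rw [hCd]; omega
  have hCf : (2 * d + 3) * C1 ≤ C := by rw [hCd]; omega
  have hCh : 1 ≤ C := by rw [hCd]; omega
  clear hCd
  refine ⟨C, hCh, ?_⟩
  intro g h b a hg hh hla Fm hba hG F hF hdeg hinf H hH2 hH x y h0 hcon
  have hB2 := Fm.B2
  have ha0 : 1 ≤ b ^ C := Nat.one_le_pow _ _ (by omega)
  have ha1 : 1 ≤ a := ha0.trans hba
  have hfd : (fU g h).natDegree = n := fU_deg (by omega) hg hh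
  have hev : ((fU g h).coeff n).eval (a : ℤ) ≠ 0 := by
    rw [fU_coeff, eval_add, eval_mul, eval_X, eval_C, eval_C]
    rw [mul_comm]
    exact hla
  have hirr : Irreducible ((fa (mo n (fU g h)) a).map (Int.castRingHom ℚ)) :=
    bad_irr (by omega) hfd hev (by rw [fU_fa]; exact hG)
  have hing : INg (fa (mo n (fU g h)) a) F :=
    mo_ing (by omega) hfd hev (by rw [fU_fa]; exact hinf)
  have hins : INs {fa (mo n (fU g h)) a} F := by
    intro K _ _ hR X' Y' hXY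
    rcases hing K hR X' Y' hXY with h1 | h1
    · exact Or.inl h1
    · exact Or.inr ⟨_, rfl, h1⟩
  refine ⟨hirr, ?_⟩
  have h1 : H ^ (cR d * c * (2 * d + 3)) ≤ (a * H) ^ C :=
    (Nat.pow_le_pow_left (Nat.le_mul_of_pos_left H ha1) _).trans
      (Nat.pow_le_pow_right (Nat.mul_pos ha1 (by omega)) hCe)
  obtain ⟨P, g1, hg1, hT, hx, hL⟩ := redM d hd c hc {fa (mo n (fU g h)) a} (by
      rintro g1 rfl
      refine ⟨Fm.monic.map _, hirr, ?_⟩
      unfold fa
      rw [Fm.monic.natDegree_map, Fm.deg]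
      omega) F hF hdeg hins H hH2 hH x y h0 (h1.trans_lt hcon)
  have hg1' : g1 = fa (mo n (fU g h)) a := hg1
  obtain ⟨l0, hL0⟩ := hL n (thA Fm.pd 1 a) (by
    rw [hg1']
    exact hTR b _ Fm a (bad_pow hba hCc ha1))
  refine ⟨l0, P, hL0, hT, ?_⟩
  have har : (1 : ℝ) ≤ a := by exact_mod_cast ha1
  have hHr : (1 : ℝ) ≤ H := by exact_mod_cast (by omega : 1 ≤ H)
  have hla : 0 ≤ Real.log a := Real.log_nonneg har
  have h2 : ((a : ℝ) * H) ^ C < |(P.x : ℝ)| ^ (2 * d + 3) := by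
    refine lt_of_lt_of_le ?_ hx
    exact_mod_cast hcon
  have h3 : (0 : ℝ) < (a : ℝ) * H := by positivity
  have h4 := Real.log_le_log (pow_pos h3 C) h2.le
  rw [Real.log_pow, Real.log_pow, Real.log_mul (by positivity) (by positivity)] at h4
  have h5 : 0 ≤ Real.log H := Real.log_nonneg hHr
  have h6 : (((2 * d + 3) * C1 : ℕ) : ℝ) * Real.log a ≤ (C : ℝ) * Real.log a :=
    mul_le_mul_of_nonneg_right (by exact_mod_cast hCf) hla
  have h7 : (0 : ℝ) ≤ (C : ℝ) * Real.log H := by positivity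
  have h8 : (((2 * d + 3 : ℕ) : ℝ)) * (C1 * Real.log a) ≤ ((2 * d + 3 : ℕ) : ℝ) * P.ell := by
    unfold Ptd.ell
    push_cast at h6 h4 ⊢
    nlinarith
  have h9 : C1 * Real.log a ≤ P.ell := le_of_mul_le_mul_left h8 (by positivity)
  exact (mul_le_mul_of_nonneg_right hR1 hla).trans h9

end Pool.Agent.H97.TU
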