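import Pool.Agent.H97.FC.RDM
import Pool.Agent.H97.FB.MON
import Pool.Agent.H97.FB.FMB

/-!
# MP_821da1_nt, THEOREM U (helper87, helper37, helper97): definitions

`g ∈ ℤ[Z]` squarefree of degree `n`. Fibres `G = a g + h`, `a ≥ B^C`, coefficients of `h` at most `B`.
`fU g h = t g + h ∈ ℤ[t][Z]`; its monic model `mo n (fU g h)` (roots `l(t) z`, `l = g_n t + h_n`).
`cenU n g`: the monic polynomial with the roots `g_n γ`, `g(γ) = 0`.
`FibU n b γ f`: `f` is a family in normal form (`FamB n 1 b f`), the constant term of the `u`-th branch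
is `γ u` (the same numbers `γ u`, in the same order, for all families with the same `g`).
`orbU γ l`: the indices `u` such that `γ u` is a conjugate of `γ l`.
-/

namespace Pool.Agent.H97.TU

open Finset Polynomial Pool.Agent.H72.ES Pool.Agent.H87.SA Pool.Agent.H87.SA2 Pool.Agent.H87.AX
  Pool.Agent.H8.AW Pool.Agent.H52.AC Pool.Agent.H97.NW Pool.Agent.H34.AC Pool.Agent.H97.FB
  Pool.Agent.H97.FC

/-- the family `t g + h` -/
noncomputable def fU (g h : ℤ[X]) : ℤ[X][X] := C X * g.map C + h.map C

/-- the monic polynomial with the roots `g_n γ`, `g(γ) = 0` -/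
noncomputable def cenU (n : ℕ) (g : ℤ[X]) : ℤ[X] :=
  X ^ n + ∑ i ∈ range n, C (g.coeff i * g.coeff n ^ (n - 1 - i)) * X ^ i

/-- a family in normal form with the prescribed constant terms of the branches -/
structure FibU (n b : ℕ) (γ : Fin n → ℂ) (f : ℤ[X][X]) where
  Fm : FamB n 1 b f
  cen : ∀ u, PowerSeries.coeff 0 (Fm.pd.x u) = γ u

open Classical in
/-- the indices of the conjugates of `γ l` -/
noncomputable def orbU {n : ℕ} (γ : Fin n → ℂ) (l : Fin n) : Finset (Fin n) :=
  univ.filter fun u => ∃ σ : AA →+* ℂ, Cj σ (γ l) (γ u)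

end Pool.Agent.H97.TU
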