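import Pool.Agent.H97.TU.CEN

/-! # [H97 TU ORB] The number of conjugates of a root of the centre polynomial

`γ l` is an algebraic integer (root of the monic `cenU n g`), `z = γ l / g_n` is a root of `g` (`cenU_rel`, `g_n ≠ 0`). `p = minpoly ℚ z` is irreducible and divides `g.map`, so `p.natDegree ≤ r`. `γ l = g_n z` is a root of `p.comp (C g_n⁻¹ * X) ≠ 0`, of the same degree, so `(minpoly ℚ (γ l)).natDegree ≤ r` (`minpoly.dvd`, `natDegree_le_of_dvd`), and `minpoly ℤ (γ l)` (`minpoly.isIntegrallyClosed_eq_field_fractions'`)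
has the same degree. If `Cj σ (γ l) (γ u)` then, with `a = ⟨γ l, _⟩ : AA`, `γ u = σ a` is a root of `minpoly ℤ (γ l)` (apply `σ` to the relation). The `γ u`, `u ∈ orbU γ l`, are different (`Rts`), so their number is at most the number of roots in `ℂ`, `≤ natDegree ≤ r`. -/

namespace Pool.Agent.H97.TU

open Finset Polynomial Pool.Agent.H72.ES Pool.Agent.H87.SA Pool.Agent.H87.SA2 Pool.Agent.H87.AX
  Pool.Agent.H8.AW Pool.Agent.H52.AC Pool.Agent.H97.NW Pool.Agent.H34.AC Pool.Agent.H97.FB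
  Pool.Agent.H97.FC

private theorem orb_deg {n r : ℕ} (hn : 1 ≤ n) {g cen : ℤ[X]} (hd : g.natDegree = n)
    (hrel : cen.comp (C (g.coeff n) * X) = C (g.coeff n ^ (n - 1)) * g) {z : ℂ}
    (hz : aeval z cen = 0)
    (hr : ∀ p : ℚ[X], Irreducible p → p ∣ g.map (Int.castRingHom ℚ) → p.natDegree ≤ r) :
    (minpoly ℚ z).natDegree ≤ r := by
  have hg0 : g ≠ 0 := by
    rintro rfl
    simp at hd
    omega
  have hl : g.coeff n ≠ 0 := by
    rw [← hd]
    exact leadingCoeff_ne_zero.mpr hg0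
  have hlC : (g.coeff n : ℂ) ≠ 0 := by exact_mod_cast hl
  have hlQ : (g.coeff n : ℚ) ≠ 0 := by exact_mod_cast hl
  set w : ℂ := z / (g.coeff n : ℂ) with hw
  have hzw : (g.coeff n : ℂ) * w = z := by
    rw [hw]
    field_simp
  have h1 : aeval w g = 0 := by
    have h2 := congrArg (aeval w) hrel
    rw [aeval_comp, map_mul, map_mul, aeval_C, aeval_X, aeval_C] at h2
    have h3 : (algebraMap ℤ ℂ) (g.coeff n) * w = z := by
      rw [← hzw]
      simp
    rw [h3, hz] at h2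
    rcases mul_eq_zero.mp h2.symm with h4 | h4
    · exfalso
      simp only [eq_intCast, Int.cast_pow] at h4
      exact pow_ne_zero _ hlC h4
    · exact h4
  have h2 : aeval w (g.map (Int.castRingHom ℚ)) = 0 := by
    have h3 : aeval w (g.map (algebraMap ℤ ℚ)) = aeval w g := aeval_map_algebraMap ℚ w g
    rw [h1] at h3
    exact h3
  have hgm : g.map (Int.castRingHom ℚ) ≠ 0 := by
    rw [Ne, Polynomial.map_eq_zero_iff (RingHom.injective_int _)]
    exact hg0
  have hwi : IsIntegral ℚ w := by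
    have : IsAlgebraic ℚ w := ⟨g.map (Int.castRingHom ℚ), hgm, h2⟩
    exact this.isIntegral
  have hp := hr (minpoly ℚ w) (minpoly.irreducible hwi) (minpoly.dvd ℚ w h2)
  refine le_trans ?_ hp
  have h3 : aeval z ((minpoly ℚ w).comp (C ((g.coeff n : ℚ)⁻¹) * X)) = 0 := by
    rw [aeval_comp, map_mul, aeval_C, aeval_X]
    have h4 : (algebraMap ℚ ℂ) ((g.coeff n : ℚ)⁻¹) * z = w := by
      rw [hw, map_inv₀, div_eq_inv_mul]
      simp
    rw [h4, minpoly.aeval]
  have h5 : (minpoly ℚ w).comp (C ((g.coeff n : ℚ)⁻¹) * X) ≠ 0 := by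
    intro h6
    have h7 := congrArg (fun q : ℚ[X] => q.comp (C (g.coeff n : ℚ) * X)) h6
    simp only [comp_assoc, zero_comp, mul_comp, C_comp, X_comp] at h7
    rw [← mul_assoc, ← C_mul, inv_mul_cancel₀ hlQ, C_1, one_mul, comp_X] at h7
    exact minpoly.ne_zero hwi h7
  have h6 := natDegree_le_of_dvd (minpoly.dvd ℚ z h3) h5
  refine h6.trans ?_
  refine natDegree_comp_le.trans ?_
  have h8 : (C ((g.coeff n : ℚ)⁻¹) * X : ℚ[X]).natDegree ≤ 1 := (natDegree_C_mul_le _ _).trans natDegree_X_le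
  calc (minpoly ℚ w).natDegree * (C ((g.coeff n : ℚ)⁻¹) * X : ℚ[X]).natDegree
      ≤ (minpoly ℚ w).natDegree * 1 := Nat.mul_le_mul_left _ h8
    _ = _ := mul_one _

private theorem orb_cnt {n : ℕ} {γ : Fin n → ℂ} (hi : Function.Injective γ) {z : ℂ}
    (hz : IsIntegral ℚ z) (S : Finset (Fin n)) (hS : ∀ u ∈ S, aeval (γ u) (minpoly ℚ z) = 0) :
    S.card ≤ (minpoly ℚ z).natDegree := by
  have h0 : (minpoly ℚ z).map (algebraMap ℚ ℂ) ≠ 0 := by
    rw [Ne, Polynomial.map_eq_zero_iff (algebraMap ℚ ℂ).injective]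
    exact minpoly.ne_zero hz
  have h1 : S.image γ ⊆ ((minpoly ℚ z).map (algebraMap ℚ ℂ)).roots.toFinset := by
    intro x hx
    obtain ⟨u, hu, rfl⟩ := Finset.mem_image.mp hx
    rw [Multiset.mem_toFinset, mem_roots h0, IsRoot.def, eval_map_algebraMap]
    exact hS u hu
  calc S.card = (S.image γ).card := (Finset.card_image_of_injective S hi).symm
    _ ≤ ((minpoly ℚ z).map (algebraMap ℚ ℂ)).roots.toFinset.card := Finset.card_le_card h1
    _ ≤ Multiset.card ((minpoly ℚ z).map (algebraMap ℚ ℂ)).roots := Multiset.toFinset_card_le _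
    _ ≤ ((minpoly ℚ z).map (algebraMap ℚ ℂ)).natDegree := card_roots' _
    _ ≤ (minpoly ℚ z).natDegree := natDegree_map_le

theorem orbU_card {n : ℕ} (hn : 1 ≤ n) {g : ℤ[X]} (hd : g.natDegree = n) {γ : Fin n → ℂ}
    (hγ : Rts (cenU n g) γ) {r : ℕ}
    (hr : ∀ p : ℚ[X], Irreducible p → p ∣ g.map (Int.castRingHom ℚ) → p.natDegree ≤ r)
    (l : Fin n) : (orbU γ l).card ≤ r := by
  classical
  have hz : aeval (γ l) (cenU n g) = 0 := by
    rw [← eval_map_algebraMap]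
    have h1 : (cenU n g).map (algebraMap ℤ ℂ) = ∏ i, (X - C (γ i)) := hγ.1
    rw [h1, eval_prod]
    exact Finset.prod_eq_zero (Finset.mem_univ l) (by simp)
  have hzi : IsIntegral ℚ (γ l) := by
    have h1 : IsIntegral ℤ (γ l) := ⟨cenU n g, (cenU_monic hn g).1, hz⟩
    exact h1.tower_top
  refine (orb_cnt hγ.2 hzi (orbU γ l) ?_).trans (orb_deg hn hd (cenU_rel hn hd) hz hr)
  intro u hu
  unfold orbU at hu
  obtain ⟨σ, hσ⟩ := (Finset.mem_filter.mp hu).2
  have hmem : γ l ∈ algebraicClosure ℚ ℂ := mem_algebraicClosure_iff.mpr hzi.isAlgebraic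
  have h1 : σ ⟨γ l, hmem⟩ = γ u := hσ ⟨γ l, hmem⟩ rfl
  have h2 : aeval (⟨γ l, hmem⟩ : AA) (minpoly ℚ (γ l)) = 0 := by
    apply Subtype.ext
    have h3 := Polynomial.aeval_algHom_apply (AA.val) (⟨γ l, hmem⟩ : AA) (minpoly ℚ (γ l))
    change (AA.val) (aeval (⟨γ l, hmem⟩ : AA) (minpoly ℚ (γ l))) = 0
    rw [← h3]
    exact minpoly.aeval ℚ (γ l)
  have h4 := Polynomial.aeval_algHom_apply (RingHom.toRatAlgHom σ) (⟨γ l, hmem⟩ : AA)
    (minpoly ℚ (γ l))
  rw [h2, map_zero] at h4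
  have h5 : (RingHom.toRatAlgHom σ) (⟨γ l, hmem⟩ : AA) = γ u := h1
  rw [h5] at h4
  exact h4

end Pool.Agent.H97.TU
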