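import Pool.Agent.H97.TU.FIC
import Pool.Agent.H97.TU.ORB

/-! # [H97 TU FIB] The families `t g + h` in normal form

`exists_famB n 1` gives `c0`. `γ` from `cenU_rts`; the statement on orbits is `orbU_card`. Given `B, h`: `f0 = fU g h`, `f = mo n f0`: monic of degree `n` (`mo_monic`), `mo_deg` (`m = 1`), `mo_le` (coefficients `≤ B1 = ((1+1) B)^n`), `mo_irr` (`fU_irr`, `fU_deg`): `FamB n 1 b f` with `b ≤ B1^c0 ≤ B^(2 n c0)` (`2 ≤ B`). See `Pool/Agent/H97/FC/WG3.lean` (the same steps).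
REORDER: by `fib_center` and `Rts`: `∏ (X - C (coeff 0 (x i))) = ∏ (X - C (γ u))`, so the multisets `univ.val.map (coeff 0 ∘ x)` and `univ.val.map γ` are equal (roots), and since `γ` is injective there is `π : Equiv.Perm (Fin n)` with `coeff 0 (x (π u)) = γ u` (`coeff 0 ∘ x` is injective with the same image). New `pd' = { pd with x := pd.x ∘ π, .. }` (injectivity, split by `Equiv.prod_comp`, integrality, growth) and
`Fm' = { Fm with pd := pd' }` (`e_le, q_le, R_le` unchanged). -/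

namespace Pool.Agent.H97.TU

open Finset Polynomial Pool.Agent.H72.ES Pool.Agent.H87.SA Pool.Agent.H87.SA2 Pool.Agent.H87.AX
  Pool.Agent.H8.AW Pool.Agent.H52.AC Pool.Agent.H97.NW Pool.Agent.H34.AC Pool.Agent.H97.FB
  Pool.Agent.H97.FC

private theorem exists_reorder {n : ℕ} {γ δ : Fin n → ℂ} (hγ : Function.Injective γ)
    (h : ∏ i, (X - C (γ i)) = ∏ i, (X - C (δ i))) : ∃ π : Equiv.Perm (Fin n), ∀ u, δ (π u) = γ u := by
  have h1 : ∀ ε : Fin n → ℂ, (∏ i, (X - C (ε i))).roots = univ.val.map ε := by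
    intro ε
    have : ∏ i, (X - C (ε i)) = ((univ.val.map ε).map fun a => X - C a).prod := by
      rw [Multiset.map_map]
      rfl
    rw [this, roots_multiset_prod_X_sub_C]
  have h2 : (univ : Finset (Fin n)).val.map γ = univ.val.map δ := by
    rw [← h1, ← h1, h]
  have h3 : ∀ u, ∃ i, δ i = γ u := by
    intro u
    have : γ u ∈ (univ : Finset (Fin n)).val.map δ := by
      rw [← h2]
      exact Multiset.mem_map_of_mem _ (Finset.mem_univ u)
    obtain ⟨i, -, hi⟩ := Multiset.mem_map.1 this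
    exact ⟨i, hi⟩
  choose π hπ using h3
  have hinj : Function.Injective π := by
    intro u v huv
    apply hγ
    rw [← hπ u, ← hπ v, huv]
  exact ⟨Equiv.ofBijective π (Finite.injective_iff_bijective.1 hinj), fun u => hπ u⟩

private noncomputable def reorderPD {f : ℤ[X][X]} {n : ℕ} (pd : PData f n) (π : Equiv.Perm (Fin n)) :
    PData f n :=
  { pd with
    x := fun u => pd.x (π u)
    x_inj := pd.x_inj.comp π.injective
    split := by rw [pd.split]; exact (Equiv.prod_comp π fun i => (X - C (pd.x i))).symm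
    integral := fun i k => pd.integral (π i) k
    growth := fun i k => pd.growth (π i) k }

private noncomputable def reorderFm {n b : ℕ} {f : ℤ[X][X]} (Fm : FamB n 1 b f)
    (π : Equiv.Perm (Fin n)) : FamB n 1 b f :=
  { Fm with
    pd := reorderPD Fm.pd π
    e_le := Fm.e_le
    q_le := Fm.q_le
    R_le := Fm.R_le }

theorem exists_fibU (n : ℕ) (hn : 2 ≤ n) : ∃ c : ℕ, ∀ (g : ℤ[X]), g.natDegree = n →
    Squarefree (g.map (Int.castRingHom ℚ)) → ∃ γ : Fin n → ℂ, (cenU n g).Monic ∧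
      Rts (cenU n g) γ ∧
      (∀ r : ℕ, (∀ p : ℚ[X], Irreducible p → p ∣ g.map (Int.castRingHom ℚ) → p.natDegree ≤ r) →
        ∀ l, (orbU γ l).card ≤ r) ∧
      ∀ (B : ℕ) (h : ℤ[X]), 2 ≤ B → h.natDegree ≤ n → (∀ i, |g.coeff i| ≤ (B : ℤ)) →
        (∀ i, |h.coeff i| ≤ (B : ℤ)) →
        IsCoprime (g.map (Int.castRingHom ℚ)) (h.map (Int.castRingHom ℚ)) →
        ∃ b : ℕ, b ≤ B ^ c ∧ Nonempty (FibU n b γ (mo n (fU g h))) := by
  obtain ⟨c0, hc0⟩ := exists_famB n 1 hn le_rfl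
  have hn1 : 1 ≤ n := by omega
  refine ⟨2 * n * c0, fun g hg hsq => ?_⟩
  obtain ⟨γ, hγ⟩ := cenU_rts hn1 hg hsq
  refine ⟨γ, (cenU_monic hn1 g).1, hγ, fun r hr l => orbU_card hn1 hg hγ hr l, ?_⟩
  intro B h hB hh hgB hhB hcop
  have hB1 : 1 ≤ B := by omega
  obtain ⟨hmon, hmdeg⟩ := mo_monic hn1 (fU g h)
  have hB12 : 2 ≤ ((1 + 1) * B) ^ n := by
    refine le_trans ?_ (Nat.le_self_pow (by omega) _)
    omega
  obtain ⟨b, hb, ⟨Fm⟩⟩ := hc0 (mo n (fU g h)) (((1 + 1) * B) ^ n) hB12 hmon hmdeg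
    (mo_deg hn1 (fU_cdeg g h)) (mo_le hn1 hB1 (fU_cdeg g h) (fU_le hgB hhB))
    (mo_irr hn1 (fU_deg hn1 hg hh) (fU_irr hn1 hg hcop))
  refine ⟨b, ?_, ?_⟩
  · refine hb.trans ?_
    have h1 : (1 + 1) * B ≤ B ^ 2 := by nlinarith
    calc (((1 + 1) * B) ^ n) ^ c0 ≤ ((B ^ 2) ^ n) ^ c0 :=
          Nat.pow_le_pow_left (Nat.pow_le_pow_left h1 _) _
      _ = B ^ (2 * n * c0) := by rw [← pow_mul, ← pow_mul, mul_assoc]
  · have hcen := fib_center hn1 hg hh Fm
    rw [hγ.1] at hcen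
    obtain ⟨π, hπ⟩ := exists_reorder hγ.2 hcen
    exact ⟨⟨reorderFm Fm π, fun u => hπ u⟩⟩

end Pool.Agent.H97.TU
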