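import Pool.Agent.H97.TU.FUI
import Pool.Agent.H97.TU.CEN

/-! # [H97 TU FIC] The constant terms of the branches of `t g + h`

`Fm.pd.split : (rv n 1 f).map (tq e q) = ∏ (X - C (x i))`, `f = mo n (fU g h)`. Apply the ring homomorphism `PowerSeries.constantCoeff` to the coefficients: the right side becomes `∏ (X - C (coeff 0 (x i)))`. Left side: `constantCoeff (tq e q p) = p.coeff 0` for `p ∈ ℤ[X]` (`e_pos`: `(qT)^e` has constant term `0`; see the definition of `tq`), and the coefficient of `Y^i` of `rv n 1 f` is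
`reflect (n - i) (f.coeff i)`, whose coefficient `0` is `(f.coeff i).coeff (n - i)` (`coeff_reflect`, `revAt`). `f.coeff n = 1`; for `i < n`: `f.coeff i = (X C g_i + C h_i) (X C g_n + C h_n)^(n-1-i)`, the coefficient of `t^(n-i)` is `g_i g_n^(n-1-i)` (product of degree at most `n - i`: `coeff_mul_of_natDegree_le`, `coeff_pow_of_natDegree_le`). So it is `(cenU n g).coeff i`. -/

namespace Pool.Agent.H97.TU

open Finset Polynomial Pool.Agent.H72.ES Pool.Agent.H87.SA Pool.Agent.H87.SA2 Pool.Agent.H87.AX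
  Pool.Agent.H8.AW Pool.Agent.H52.AC Pool.Agent.H97.NW Pool.Agent.H34.AC Pool.Agent.H97.FB
  Pool.Agent.H97.FC

private theorem fic_tq {e q : ℕ} (he : 1 ≤ e) :
    (PowerSeries.constantCoeff (R := ℂ)).comp (tq e q) =
      (Int.castRingHom ℂ).comp (Polynomial.constantCoeff (R := ℤ)) := by
  refine Polynomial.ringHom_ext' (RingHom.ext_int _ _) ?_
  unfold tq
  simp only [RingHom.comp_apply, coe_eval₂RingHom, eval₂_X, map_pow, map_mul,
    PowerSeries.constantCoeff_C, PowerSeries.constantCoeff_X, mul_zero,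
    Polynomial.constantCoeff_apply, coeff_X_zero, map_zero]
  rw [zero_pow (by omega)]

private theorem fic_mo (n : ℕ) (F : ℤ[X][X]) {i : ℕ} (hi : i < n) :
    (mo n F).coeff i = F.coeff i * F.coeff n ^ (n - 1 - i) := by
  unfold mo
  rw [coeff_add, coeff_X_pow, if_neg (by omega), zero_add, finsetSum_coeff]
  simp only [coeff_C_mul, coeff_X_pow, mul_ite, mul_one, mul_zero]
  rw [Finset.sum_ite_eq, if_pos (mem_range.2 hi)]

private theorem fic_mo_n (n : ℕ) (F : ℤ[X][X]) : (mo n F).coeff n = 1 := by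
  unfold mo
  rw [coeff_add, coeff_X_pow, if_pos rfl, finsetSum_coeff]
  simp only [coeff_C_mul, coeff_X_pow, mul_ite, mul_one, mul_zero]
  rw [Finset.sum_ite_eq, if_neg (by simp), add_zero]

private theorem fic_lin (a b : ℤ) : (X * C a + C b : ℤ[X]).natDegree ≤ 1 ∧
    (X * C a + C b : ℤ[X]).coeff 1 = a := by
  constructor
  · refine (natDegree_add_le _ _).trans (max_le ?_ ?_)
    · refine (natDegree_mul_le).trans ?_
      rw [natDegree_C, add_zero]
      exact natDegree_X_le
    · rw [natDegree_C]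
      exact Nat.zero_le _
  · rw [coeff_add, coeff_X_mul, coeff_C_zero, coeff_C, if_neg one_ne_zero, add_zero]

private theorem fic_rv {n : ℕ} {g h : ℤ[X]} :
    (rv n 1 (mo n (fU g h))).map (Polynomial.constantCoeff (R := ℤ)) = cenU n g := by
  have hcoef : ∀ i, i < n → ((mo n (fU g h)).coeff i).coeff (n - i) =
      g.coeff i * g.coeff n ^ (n - 1 - i) := by
    intro i hi
    rw [fic_mo n _ hi, fU_coeff, fU_coeff]
    obtain ⟨a1, a2⟩ := fic_lin (g.coeff i) (h.coeff i)
    obtain ⟨b1, b2⟩ := fic_lin (g.coeff n) (h.coeff n)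
    have h1 : n - i = 1 + (n - 1 - i) * 1 := by omega
    rw [h1, coeff_mul_add_eq_of_natDegree_le a1 (natDegree_pow_le_of_le _ b1), a2,
      coeff_pow_of_natDegree_le b1, b2]
  unfold rv cenU
  rw [Polynomial.map_sum, Finset.sum_range_succ, add_comm]
  congr 1
  · rw [Polynomial.map_mul, Polynomial.map_pow, map_X, map_C, Nat.sub_self, mul_zero,
      fic_mo_n]
    have : (Polynomial.constantCoeff (R := ℤ)) (reflect 0 1) = 1 := by
      rw [Polynomial.constantCoeff_apply, coeff_reflect]
      simp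
    rw [this, C_1, one_mul]
  · refine Finset.sum_congr rfl fun i hi => ?_
    have hi' := mem_range.1 hi
    rw [Polynomial.map_mul, Polynomial.map_pow, map_X, map_C, one_mul, ← hcoef i hi',
      Polynomial.constantCoeff_apply, coeff_reflect, revAt_zero]

theorem fib_center {n b : ℕ} {g h : ℤ[X]} (hn : 1 ≤ n) (hg : g.natDegree = n) (hh : h.natDegree ≤ n)
    (Fm : FamB n 1 b (mo n (fU g h))) : (cenU n g).map (Int.castRingHom ℂ) =
      ∏ i, (X - C (PowerSeries.coeff 0 (Fm.pd.x i))) := by
  have h1 := congrArg (Polynomial.map (PowerSeries.constantCoeff (R := ℂ))) Fm.pd.split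
  rw [Polynomial.map_map, fic_tq Fm.pd.e_pos, ← Polynomial.map_map, fic_rv,
    Polynomial.map_prod] at h1
  rw [h1]
  refine Finset.prod_congr rfl fun i _ => ?_
  rw [Polynomial.map_sub, map_X, map_C, PowerSeries.coeff_zero_eq_constantCoeff]

end Pool.Agent.H97.TU
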