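import Pool.Agent.H97.TU.FRA
import Pool.Agent.H87.TX.TXG
import Pool.Agent.H98.MR.RTH

/-! # [H97 TU FRU] The lacunary theorem for fibres near polynomials whose fields contain a fixed field (assembly)

From `farA` (`FRA.lean`) and the twisted curves (`exists_twMF`, `Pool/Agent/H87/TX`, `A.x = a ^ m`). -/

namespace Pool.Agent.H97.TU

open Finset Polynomial Pool.Agent.H72.ES Pool.Agent.H87.SA Pool.Agent.H87.SA2 Pool.Agent.H87.AX
  Pool.Agent.H8.AW Pool.Agent.H52.AC Pool.Agent.H97.NW Pool.Agent.H34.AC Pool.Agent.H97.FB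
  Pool.Agent.H97.FC Pool.Agent.H37.TU Pool.Agent.H87.TW Pool.Agent.H87.TX Pool.Agent.H98.MR

theorem farU (n m r s M ν : ℕ) (hn : 2 ≤ n) (hm : 1 ≤ m) (hM : 1 ≤ M) (hν : 4 ≤ ν)
    (hnum : Num M n r s) :
    ∃ (R1 : ℝ) (c : ℕ), 1 ≤ R1 ∧ ∀ (q : ℚ[X]) (β : ℂ), Irreducible q → q.natDegree = r →
      aeval β q = 0 → ∀ D : Fin M → BadD n m ν c s R1 q β,
      (∀ v w, v < w → R1 * (D v).P.ell ≤ Real.log (D w).a) → False := by
  classical
  obtain ⟨κ, hκ, htw⟩ := exists_twMF n m hn hm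
  obtain ⟨ν', hν'⟩ : ∃ ν', ν' = max ν (m * n.factorial) := ⟨_, rfl⟩
  have hν1 : ν ≤ ν' := by rw [hν']; exact le_max_left _ _
  have hν2 : m * n.factorial ≤ ν' := by rw [hν']; exact le_max_right _ _
  obtain ⟨R, c0, hR, hfar⟩ := farA n r s M ν' κ hM (by omega) hnum
  obtain ⟨C1, hC1⟩ := htw c0
  obtain ⟨C2, hC2⟩ := thA_rts n m
  have hmr : (1 : ℝ) ≤ m := by exact_mod_cast hm
  have hRm : R ≤ R * m := le_mul_of_one_le_right (by linarith) hmr
  refine ⟨R * m, cA ν' + 2 * c0 + C1 + C2, hR.trans hRm, ?_⟩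
  intro q β hq hr hβ D hlac
  have hpow : ∀ v, ∀ k ≤ cA ν' + 2 * c0 + C1 + C2, (D v).b ^ k ≤ (D v).a := fun v k hk =>
    (Nat.pow_le_pow_right (by have := (D v).Fm.Fm.B2; omega) hk).trans (D v).ba
  have hlog : ∀ v, 0 ≤ Real.log (D v).a := fun v => Real.log_nonneg (by exact_mod_cast (D v).a1)
  have htwv : ∀ v, ∃ P : Ptd ν', P.x = ((D v).a : ℤ) ^ m ∧ Rlx κ c0 P ∧
      TauA (thA (D v).Fm.Fm.pd m (D v).a) (D v).γ P := by
    intro v
    have hcen : (fun u => PowerSeries.coeff 0 ((D v).Fm.Fm.pd.x u)) = (D v).γ :=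
      funext (D v).Fm.cen
    obtain ⟨P, h1, h2, h3⟩ := hC1 (D v).b (D v).f (D v).Fm.Fm (by rw [hcen]; exact (D v).rts.2)
      (D v).a (hpow v C1 (by omega)) ν' hν2
    exact ⟨P, h1, h2, by rwa [hcen] at h3⟩
  choose A hA1 hA2 hA3 using htwv
  have hell : ∀ v, (A v).ell = m * Real.log (D v).a := by
    intro v
    simp only [Ptd.ell, hA1]
    push_cast
    rw [abs_of_nonneg (by positivity), Real.log_pow]
  refine hfar (fun v => fa (D v).f (D v).a) (fun v => thA (D v).Fm.Fm.pd m (D v).a)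
    (fun v => (D v).gc) (fun v => (D v).γ) q β (fun v => (D v).p) (fun v => (D v).φ)
    (fun v => (D v).l) hq hr hβ (fun v => (D v).monic) (fun v => (D v).rts) (fun v => (D v).p0)
    (fun v => (D v).pd) (fun v => (D v).pl) (fun v => (D v).φl)
    (fun v => (D v).Fm.Fm.monic.map _) (fun v => (D v).irr)
    (fun v => hC2 _ _ _ _ (hpow _ C2 (by omega))) (fun v => liftP hν1 (D v).P) A
    (fun v => by
      obtain ⟨L⟩ := (D v).L
      exact liftP_LbG hν1 _ _ _ L) hA3 (fun v => ?_) hA2 (fun v => ?_) (fun v => ?_)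
    (fun v w hvw => ?_)
  · apply rlx_of_thr (by omega) hκ
    exact (D v).P.thr_mono (by omega) (D v).thr
  · rw [hell]
    exact mul_nonneg (by positivity) (hlog v)
  · rw [hell, ← mul_assoc]
    exact (D v).big
  · rw [hell]
    have h1 : 0 ≤ (D v).P.ell := (mul_nonneg (by positivity) (hlog v)).trans (D v).big
    have h2 : R * (D v).P.ell ≤ R * m * (D v).P.ell := mul_le_mul_of_nonneg_right hRm h1
    exact (h2.trans (hlac v w hvw)).trans (le_mul_of_one_le_left (hlog w) hmr)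

end Pool.Agent.H97.TU
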