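import Pool.Agent.H97.TU.Defs

/-! # [H97 TU FUI] The family `t g + h`

Straightforward. `fU_irr`: `fU g h` mapped to `ℂ[X][X]` is `Polynomial.Bivariate.swap (C gc * Y + C hc)` (`Y = X`; `gc, hc` the images of `g, h` in `ℂ[X]`; `Bivariate.swap_C`, `Bivariate.swap_Y`), and `C gc * Y + C hc` is irreducible by `Polynomial.irreducible_of_degree_eq_one_of_isRelPrime_coeff` (`gc ≠ 0`; `IsCoprime` over `ℚ` maps to `IsCoprime` over `ℂ`, hence `IsRelPrime`); `swap` is a ring isomorphism (`MulEquiv.irreducible_iff`). -/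

namespace Pool.Agent.H97.TU

open Finset Polynomial Pool.Agent.H72.ES Pool.Agent.H87.SA Pool.Agent.H87.SA2 Pool.Agent.H87.AX
  Pool.Agent.H8.AW Pool.Agent.H52.AC Pool.Agent.H97.NW Pool.Agent.H34.AC Pool.Agent.H97.FB
  Pool.Agent.H97.FC

theorem fU_coeff (g h : ℤ[X]) (i : ℕ) : (fU g h).coeff i = X * C (g.coeff i) + C (h.coeff i) := by
  unfold fU
  rw [coeff_add, coeff_C_mul, coeff_map, coeff_map]

theorem fU_deg {n : ℕ} {g h : ℤ[X]} (hn : 1 ≤ n) (hg : g.natDegree = n) (hh : h.natDegree ≤ n) :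
    (fU g h).natDegree = n := by
  have hgn : g.coeff n ≠ 0 := by
    rw [← hg]
    intro h0
    have h1 : g = 0 := leadingCoeff_eq_zero.1 h0
    rw [h1, natDegree_zero] at hg
    omega
  refine natDegree_eq_of_le_of_coeff_ne_zero ?_ ?_
  · rw [natDegree_le_iff_coeff_eq_zero]
    intro i hi
    rw [fU_coeff, coeff_eq_zero_of_natDegree_lt (by omega : g.natDegree < i),
      coeff_eq_zero_of_natDegree_lt (by omega : h.natDegree < i), C_0, mul_zero, add_zero]
  · rw [fU_coeff]
    intro h0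
    have h1 := congrArg (fun q : ℤ[X] => q.coeff 1) h0
    simp only [coeff_add, coeff_X_mul, coeff_C_zero, coeff_C, coeff_zero] at h1
    simp at h1
    exact hgn h1

theorem fU_cdeg (g h : ℤ[X]) (i : ℕ) : ((fU g h).coeff i).natDegree ≤ 1 := by
  rw [fU_coeff]
  refine (natDegree_add_le _ _).trans (max_le ?_ ?_)
  · refine natDegree_mul_le.trans ?_
    rw [natDegree_C, add_zero]
    exact natDegree_X_le
  · rw [natDegree_C]
    exact Nat.zero_le _

theorem fU_le {g h : ℤ[X]} {B : ℕ} (hg : ∀ i, |g.coeff i| ≤ (B : ℤ))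
    (hh : ∀ i, |h.coeff i| ≤ (B : ℤ)) (i j : ℕ) : |((fU g h).coeff i).coeff j| ≤ (B : ℤ) := by
  rw [fU_coeff, coeff_add]
  rcases j with _ | _ | j
  · rw [coeff_C_zero, mul_coeff_zero, coeff_X_zero, zero_mul, zero_add]
    exact hh i
  · rw [coeff_X_mul, coeff_C_zero, coeff_C_succ, add_zero]
    exact hg i
  · rw [coeff_X_mul, coeff_C_succ, coeff_C_succ, add_zero, abs_zero]
    exact Int.natCast_nonneg B

theorem fU_fa (g h : ℤ[X]) (a : ℕ) : fa (fU g h) a = C (a : ℤ) * g + h := by
  ext i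
  unfold fa
  rw [coeff_map, fU_coeff, coeff_add, coeff_C_mul]
  simp

theorem fU_irr {n : ℕ} {g h : ℤ[X]} (hn : 1 ≤ n) (hg : g.natDegree = n)
    (hcop : IsCoprime (g.map (Int.castRingHom ℚ)) (h.map (Int.castRingHom ℚ))) :
    Irreducible ((fU g h).map (mapRingHom (Int.castRingHom ℂ))) := by
  set gc : ℂ[X] := g.map (Int.castRingHom ℂ) with hgc
  set hc : ℂ[X] := h.map (Int.castRingHom ℂ) with hhc
  have hg0 : gc ≠ 0 := by
    intro h0
    have h1 : g = 0 := (Polynomial.map_eq_zero_iff (RingHom.injective_int _)).1 h0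
    rw [h1, natDegree_zero] at hg
    omega
  have hcop2 : IsCoprime gc hc := by
    have h1 := hcop.map (mapRingHom (algebraMap ℚ ℂ))
    rw [coe_mapRingHom, Polynomial.map_map, Polynomial.map_map] at h1
    have h2 : (algebraMap ℚ ℂ).comp (Int.castRingHom ℚ) = Int.castRingHom ℂ := RingHom.ext_int _ _
    rw [h2] at h1
    exact h1
  have hirr : Irreducible (C gc * X + C hc) :=
    irreducible_C_mul_X_add_C hg0 hcop2.isRelPrime
  have h1 : (fU g h).map (mapRingHom (Int.castRingHom ℂ)) =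
      Polynomial.Bivariate.swap (C gc * X + C hc) := by
    have h3 : ∀ q : ℤ[X], (q.map C).map (mapRingHom (Int.castRingHom ℂ)) =
        (q.map (Int.castRingHom ℂ)).map C := by
      intro q
      rw [Polynomial.map_map, Polynomial.map_map]
      congr 1
      exact RingHom.ext_int _ _
    unfold fU
    rw [Polynomial.map_add, Polynomial.map_mul, map_add, map_mul, Polynomial.Bivariate.swap_C,
      Polynomial.Bivariate.swap_C, Polynomial.Bivariate.swap_Y, h3, h3, Polynomial.map_C,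
      mul_comm (C (mapRingHom (Int.castRingHom ℂ) X))]
    simp only [coe_mapRingHom, Polynomial.map_X]
    rfl
  rw [h1]
  exact (MulEquiv.irreducible_iff (Polynomial.Bivariate.swap (R := ℂ)).toMulEquiv).2 hirr

end Pool.Agent.H97.TU
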