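import Pool.Agent.H97.TU.Defs2

/-! # [H97 TU IFU] The interface of the chapters (statements only; NOT imported by the final files) -/

namespace Pool.Agent.H97.TU.IFU

open Finset Polynomial Pool.Agent.H72.ES Pool.Agent.H87.SA Pool.Agent.H87.SA2 Pool.Agent.H87.AX
  Pool.Agent.H8.AW Pool.Agent.H52.AC Pool.Agent.H97.NW Pool.Agent.H34.AC Pool.Agent.H97.FB
  Pool.Agent.H97.FC Pool.Agent.H97.TU

/-- chapters M (machine), T (twisted curve), S (stable set, count): `M` bad fibres whose centres have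
fields containing the fixed field `ℚ[X]/q`, all sizes `a_1 << x_1 << a_2 << x_2 << ..` far apart, are
impossible. File Pool/Agent/H97/TU/FRU.lean (assembly helper98; stable set helper37; curve helper87) -/
theorem farU (n m r s M ν : ℕ) (hn : 2 ≤ n) (hm : 1 ≤ m) (hM : 1 ≤ M) (hν : 4 ≤ ν)
    (hnum : Num M n r s) :
    ∃ (R1 : ℝ) (c : ℕ), 1 ≤ R1 ∧ ∀ (q : ℚ[X]) (β : ℂ), Irreducible q → q.natDegree = r →
      aeval β q = 0 → ∀ D : Fin M → BadD n m ν c s R1 q β,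
      (∀ v w, v < w → R1 * (D v).P.ell ≤ Real.log (D w).a) → False := sorry

/-- chapter A (helper97): the families `t g + h` in normal form. File Pool/Agent/H97/TU/FIB.lean -/
theorem exists_fibU (n : ℕ) (hn : 2 ≤ n) : ∃ c : ℕ, ∀ (g : ℤ[X]), g.natDegree = n →
    Squarefree (g.map (Int.castRingHom ℚ)) → ∃ γ : Fin n → ℂ, (cenU n g).Monic ∧
      Rts (cenU n g) γ ∧
      (∀ r : ℕ, (∀ p : ℚ[X], Irreducible p → p ∣ g.map (Int.castRingHom ℚ) → p.natDegree ≤ r) →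
        ∀ l, (orbU γ l).card ≤ r) ∧
      ∀ (B : ℕ) (h : ℤ[X]), 2 ≤ B → h.natDegree ≤ n → (∀ i, |g.coeff i| ≤ (B : ℤ)) →
        (∀ i, |h.coeff i| ≤ (B : ℤ)) →
        IsCoprime (g.map (Int.castRingHom ℚ)) (h.map (Int.castRingHom ℚ)) →
        ∃ b : ℕ, b ≤ B ^ c ∧ Nonempty (FibU n b γ (mo n (fU g h))) := sorry

end Pool.Agent.H97.TU.IFU
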