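import Pool.Agent.H97.TU.FRU
import Pool.Agent.H97.TU.SEQ

/-! # [H97 TU NOB] No bad fibres with a large parameter -/

namespace Pool.Agent.H97.TU

open Finset Polynomial Pool.Agent.H72.ES Pool.Agent.H87.SA Pool.Agent.H87.SA2 Pool.Agent.H87.AX
  Pool.Agent.H8.AW Pool.Agent.H52.AC Pool.Agent.H97.NW Pool.Agent.H34.AC Pool.Agent.H97.FB
  Pool.Agent.H97.FC

/-- weaker constants -/
def BadD.mono {n m ν c c' s : ℕ} {R1 R1' : ℝ} {q : ℚ[X]} {β : ℂ} (hc : c ≤ c') (hR : R1 ≤ R1')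
    (D : BadD n m ν c' s R1' q β) : BadD n m ν c s R1 q β :=
  { D with
    ba := (Nat.pow_le_pow_right (by have := D.Fm.Fm.B2; omega) hc).trans D.ba
    thr := D.P.thr_mono hc D.thr
    big := (mul_le_mul_of_nonneg_right hR
      (Real.log_nonneg (by exact_mod_cast D.a1))).trans D.big }

theorem BadD.mono_a {n m ν c c' s : ℕ} {R1 R1' : ℝ} {q : ℚ[X]} {β : ℂ} (hc : c ≤ c') (hR : R1 ≤ R1')
    (D : BadD n m ν c' s R1' q β) : (D.mono hc hR).a = D.a := rfl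

/-- for every root `β` -/
theorem noBad1 (n m r s M ν : ℕ) (hn : 2 ≤ n) (hm : 1 ≤ m) (hM : 1 ≤ M) (hν : 4 ≤ ν) (hnum : Num M n r s) :
    ∃ (R1 : ℝ) (c : ℕ), 1 ≤ R1 ∧ ∀ (q : ℚ[X]) (β : ℂ), Irreducible q → q.natDegree = r →
      aeval β q = 0 → ∃ A0 : ℕ, ∀ D : BadD n m ν c s R1 q β, D.a < A0 := by
  obtain ⟨R1, c, hR1, hfar⟩ := farU n m r s M ν hn hm hM hν hnum
  refine ⟨R1, c, hR1, fun q β hq hr hβ => ?_⟩
  by_contra hcon
  push Not at hcon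
  have hlog0 : ∀ D : BadD n m ν c s R1 q β, 0 ≤ Real.log D.a := fun D =>
    Real.log_nonneg (by exact_mod_cast D.a1)
  have hαβ : ∀ D : BadD n m ν c s R1 q β, Real.log D.a ≤ D.P.ell := fun D =>
    (le_mul_of_one_le_left (hlog0 D) hR1).trans D.big
  obtain ⟨sq, hs⟩ := exists_lac (D := BadD n m ν c s R1 q β) (fun D => Real.log D.a)
    (fun D => D.P.ell) hαβ (fun D => (hlog0 D).trans (hαβ D)) (by
      intro x
      obtain ⟨D, hD⟩ := hcon (⌈Real.exp x⌉₊)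
      refine ⟨D, ?_⟩
      rw [Real.le_log_iff_exp_le (by exact_mod_cast D.a1)]
      exact (Nat.le_ceil _).trans (by exact_mod_cast hD)) R1 hR1
  exact hfar q β hq hr hβ (fun v : Fin M => sq v) fun v w hvw => hs v w hvw

/-- for finitely many fields, all degrees -/
theorem noBad (n m ν : ℕ) (hn : 2 ≤ n) (hm : 1 ≤ m) (hν : 4 ≤ ν) : ∃ (R1 : ℝ) (c : ℕ), 1 ≤ R1 ∧
    ∀ QQ : Finset ℚ[X], ∃ A0 : ℕ, ∀ q ∈ QQ, Irreducible q → q.natDegree ≤ n → ∀ s ≤ n,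
      (∃ M, 1 ≤ M ∧ Num M n q.natDegree s) → ∀ β : ℂ, aeval β q = 0 →
      ∀ D : BadD n m ν c s R1 q β, D.a < A0 := by
  classical
  have h1 : ∀ r s : ℕ, ∃ (R1 : ℝ) (c : ℕ), 1 ≤ R1 ∧ ((∃ M, 1 ≤ M ∧ Num M n r s) →
      ∀ (q : ℚ[X]) (β : ℂ), Irreducible q → q.natDegree = r →
      aeval β q = 0 → ∃ A0 : ℕ, ∀ D : BadD n m ν c s R1 q β, D.a < A0) := by
    intro r s
    by_cases h : ∃ M, 1 ≤ M ∧ Num M n r s
    · obtain ⟨M, hM, hnum⟩ := h
      obtain ⟨R1, c, hR1, h2⟩ := noBad1 n m r s M ν hn hm hM hν hnum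
      exact ⟨R1, c, hR1, fun _ => h2⟩
    · exact ⟨1, 0, le_refl _, fun h' => absurd h' h⟩
  choose Rf cf hRf hf using h1
  obtain ⟨R1, hR1d⟩ : ∃ R1, R1 = ∑ r ∈ range (n + 1), ∑ s ∈ range (n + 1), Rf r s := ⟨_, rfl⟩
  obtain ⟨c, hcd⟩ : ∃ c, c = ∑ r ∈ range (n + 1), ∑ s ∈ range (n + 1), cf r s := ⟨_, rfl⟩
  have hR0 : ∀ r s, 0 ≤ Rf r s := fun r s => zero_le_one.trans (hRf r s)
  have hRle : ∀ r ≤ n, ∀ s ≤ n, Rf r s ≤ R1 := by
    intro r hr s hs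
    rw [hR1d]
    exact (single_le_sum (f := fun s => Rf r s) (fun s _ => hR0 r s)
      (mem_range.2 (by omega))).trans
      (single_le_sum (f := fun r => ∑ s ∈ range (n + 1), Rf r s)
        (fun r _ => sum_nonneg fun s _ => hR0 r s) (mem_range.2 (by omega)))
  have hcle : ∀ r ≤ n, ∀ s ≤ n, cf r s ≤ c := by
    intro r hr s hs
    rw [hcd]
    exact (single_le_sum (f := fun s => cf r s) (fun s _ => Nat.zero_le _)
      (mem_range.2 (by omega))).trans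
      (single_le_sum (f := fun r => ∑ s ∈ range (n + 1), cf r s)
        (fun r _ => Nat.zero_le _) (mem_range.2 (by omega)))
  refine ⟨R1, c, (hRf 0 0).trans (hRle 0 (by omega) 0 (by omega)), fun QQ => ?_⟩
  have h2 : ∀ (q : ℚ[X]) (s : ℕ) (β : ℂ), ∃ A0 : ℕ, Irreducible q → q.natDegree ≤ n → s ≤ n →
      (∃ M, 1 ≤ M ∧ Num M n q.natDegree s) → aeval β q = 0 →
      ∀ D : BadD n m ν c s R1 q β, D.a < A0 := by
    intro q s β
    by_cases h : Irreducible q ∧ q.natDegree ≤ n ∧ s ≤ n ∧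
      (∃ M, 1 ≤ M ∧ Num M n q.natDegree s) ∧ aeval β q = 0
    · obtain ⟨hq, hqn, hs, hnum, hβ⟩ := h
      obtain ⟨A0, hA0⟩ := hf q.natDegree s hnum q β hq rfl hβ
      exact ⟨A0, fun _ _ _ _ _ D => by
        have h3 := hA0 (D.mono (hcle _ hqn _ hs) (hRle _ hqn _ hs))
        rwa [BadD.mono_a] at h3⟩
    · exact ⟨0, fun h1 h2 h3 h4 h5 => absurd ⟨h1, h2, h3, h4, h5⟩ h⟩
  choose A hA using h2
  refine ⟨∑ q ∈ QQ, ∑ s ∈ range (n + 1), ∑ β ∈ (q.aroots ℂ).toFinset, A q s β, ?_⟩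
  intro q hq hqi hqn s hs hnum β hβ D
  refine (hA q s β hqi hqn hs hnum hβ D).trans_le ?_
  have hβm : β ∈ (q.aroots ℂ).toFinset := by
    rw [Multiset.mem_toFinset, mem_aroots]
    exact ⟨hqi.ne_zero, hβ⟩
  exact (single_le_sum (f := fun β => A q s β) (fun _ _ => Nat.zero_le _) hβm).trans
    ((single_le_sum (f := fun s => ∑ β ∈ (q.aroots ℂ).toFinset, A q s β)
      (fun _ _ => Nat.zero_le _) (mem_range.2 (by omega))).trans
      (single_le_sum (f := fun q => ∑ s ∈ range (n + 1), ∑ β ∈ (q.aroots ℂ).toFinset, A q s β)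
        (fun _ _ => Nat.zero_le _) hq))

/-- one fibre: centres whose relevant factors have degree less than `n / 2` -/
theorem noBadE (n m ν : ℕ) (hn : 2 ≤ n) (hm : 1 ≤ m) (hν : 4 ≤ ν) : ∃ (R1 : ℝ) (c : ℕ), 1 ≤ R1 ∧
    ∀ s, 2 * s < n → BadD n m ν c s R1 (X : ℚ[X]) 0 → False := by
  have hnum : Num 1 n 1 ((n - 1) / 2) := by
    have h1 : 2 * ((n - 1) / 2) < n := by omega
    have h2 : 2 * ((n - 1) / 2) ≤ n - 1 := Nat.mul_div_le _ _
    unfold Num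
    simp only [Nat.mul_one, Nat.one_mul, pow_one]
    have h3 : (2 : ℕ).factorial = 2 := rfl
    rw [h3]
    omega
  obtain ⟨R1, c, hR1, hfar⟩ := farU n m 1 ((n - 1) / 2) 1 ν hn hm le_rfl hν hnum
  refine ⟨R1, c, hR1, fun s hs D => ?_⟩
  refine hfar X 0 irreducible_X natDegree_X (by simp) (fun _ =>
    { D with pd := D.pd.trans (by omega) }) fun v w hvw => ?_
  exact absurd hvw (by
    have h1 := Subsingleton.elim v w
    rw [h1]
    exact lt_irrefl w)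

end Pool.Agent.H97.TU
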