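import Pool.Agent.H97.TU.CEN

/-! # [H97 TU POL] The degrees of the roots of the centre polynomial -/

namespace Pool.Agent.H97.TU

open Finset Polynomial Pool.Agent.H72.ES Pool.Agent.H87.SA Pool.Agent.H87.SA2 Pool.Agent.H87.AX
  Pool.Agent.H8.AW Pool.Agent.H52.AC Pool.Agent.H97.NW Pool.Agent.H34.AC Pool.Agent.H97.FB
  Pool.Agent.H97.FC

theorem cen_pol {n : ℕ} (hn : 1 ≤ n) {g : ℤ[X]} (hd : g.natDegree = n) {γ : Fin n → ℂ}
    (hγ : Rts (cenU n g) γ) {r : ℕ}
    (hr : ∀ p : ℚ[X], Irreducible p → p ∣ g.map (Int.castRingHom ℚ) → p.natDegree ≤ r)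
    (l : Fin n) : ∃ p : ℚ[X], p ≠ 0 ∧ p.natDegree ≤ r ∧ aeval (γ l) p = 0 := by
  have hl : g.coeff n ≠ 0 := by
    have h3 : g.leadingCoeff ≠ 0 := by
      rw [Ne, leadingCoeff_eq_zero]
      rintro rfl
      simp at hd
      omega
    rwa [leadingCoeff, hd] at h3
  have hlC : ((g.coeff n : ℤ) : ℂ) ≠ 0 := by exact_mod_cast hl
  have hlQ : ((g.coeff n : ℤ) : ℚ) ≠ 0 := by exact_mod_cast hl
  obtain ⟨z, hz⟩ : ∃ z : ℂ, z = γ l / (g.coeff n : ℂ) := ⟨_, rfl⟩
  have hγz : (g.coeff n : ℂ) * z = γ l := by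
    rw [hz]
    field_simp
  have hroot : aeval (γ l) (cenU n g) = 0 := by
    rw [aeval_def, algebraMap_int_eq, ← eval_map, hγ.1, eval_prod]
    exact Finset.prod_eq_zero (Finset.mem_univ l) (by simp)
  have hgz : aeval z g = 0 := by
    have h1 : aeval z ((cenU n g).comp (Polynomial.C (g.coeff n) * X)) =
        aeval z (Polynomial.C (g.coeff n ^ (n - 1)) * g) := by rw [cenU_rel hn hd]
    have e1 : aeval z (Polynomial.C (g.coeff n) * X : ℤ[X]) = γ l := by
      rw [← hγz, map_mul, aeval_C, aeval_X, algebraMap_int_eq, Int.coe_castRingHom]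
    have e2 : aeval z (Polynomial.C (g.coeff n ^ (n - 1)) : ℤ[X]) = (g.coeff n : ℂ) ^ (n - 1) := by
      rw [aeval_C, algebraMap_int_eq, map_pow, Int.coe_castRingHom]
    rw [aeval_comp, e1, hroot, map_mul, e2] at h1
    rcases mul_eq_zero.1 h1.symm with h2 | h2
    · exact absurd h2 (pow_ne_zero (n - 1) hlC)
    · exact h2
  have hgQz : aeval z (g.map (Int.castRingHom ℚ)) = 0 := by
    have h4 := aeval_map_algebraMap ℚ z g
    rw [algebraMap_int_eq] at h4
    rw [h4, hgz]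
  have hgQ0 : g.map (Int.castRingHom ℚ) ≠ 0 := by
    rw [Ne, Polynomial.map_eq_zero_iff (RingHom.injective_int _)]
    rintro rfl
    simp at hl
  have hint : IsIntegral ℚ z := (isAlgebraic_iff_isIntegral).1 ⟨_, hgQ0, hgQz⟩
  have hmd : minpoly ℚ z ∣ g.map (Int.castRingHom ℚ) := minpoly.dvd ℚ z hgQz
  have hmr := hr _ (minpoly.irreducible hint) hmd
  refine ⟨(minpoly ℚ z).comp (C (((g.coeff n : ℤ) : ℚ))⁻¹ * X), ?_, ?_, ?_⟩
  · intro h0
    rcases comp_eq_zero_iff.1 h0 with h1 | h1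
    · exact minpoly.ne_zero hint h1
    · have h2 := congrArg natDegree h1.2
      rw [natDegree_C_mul_X _ (inv_ne_zero hlQ), natDegree_C] at h2
      exact one_ne_zero h2
  · rw [natDegree_comp, natDegree_C_mul_X _ (inv_ne_zero hlQ), mul_one]
    exact hmr
  · rw [aeval_comp, map_mul, aeval_C, aeval_X, ← hγz]
    have h1 : (algebraMap ℚ ℂ) (((g.coeff n : ℤ) : ℚ))⁻¹ * ((g.coeff n : ℂ) * z) = z := by
      rw [map_inv₀, map_intCast]
      field_simp
    rw [h1, minpoly.aeval]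

end Pool.Agent.H97.TU
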