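import Pool.Agent.H97.TU.Defs2
import Pool.Agent.H97.NW.PTF

/-! # [H97 TU RLB] The near label is real -/

namespace Pool.Agent.H97.TU

open Finset Polynomial Pool.Agent.H72.ES Pool.Agent.H87.SA Pool.Agent.H87.SA2 Pool.Agent.H87.AX
  Pool.Agent.H8.AW Pool.Agent.H52.AC Pool.Agent.H97.NW Pool.Agent.H34.AC Pool.Agent.H97.FB
  Pool.Agent.H97.FC

/-- the near branch is real, up to a rotation -/
theorem ptd_near {ν : ℕ} (hν : 4 ≤ ν) (P : Ptd ν) (h : P.Thr (cA ν)) :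
    ∃ (j : Fin P.d) (ζ : ℂ), (P.C.pd.x P.i).map (starRingEnd ℂ) = P.C.pd.x j ∧
      ζ ^ P.C.pd.e = 1 ∧ PowerSeries.rescale ζ (P.C.pd.x j) = P.C.pd.x P.i := by
  obtain ⟨-, -, -, -, hx0, huniq⟩ := P.facts hν h
  have hxC : (P.x : ℂ) ≠ 0 := by exact_mod_cast hx0
  have hTx := P.hT
  have hi' : evT P.T (P.C.pd.x P.i) = (P.y : ℂ) / (P.x : ℂ) := P.hy
  have ht : ((P.C.pd.q : ℂ) * P.T) ^ P.C.pd.e = 1 / (P.x : ℂ) := by
    rw [eq_div_iff hxC]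
    exact hTx
  have he : P.C.pd.e ≠ 0 := by have := P.C.pd.e_pos; omega
  have hT0 : P.T ≠ 0 := by
    intro h0
    rw [h0, mul_zero, zero_pow he] at ht
    exact one_div_ne_zero hxC ht.symm
  have hq0 : (P.C.pd.q : ℂ) ≠ 0 := by
    have := P.C.pd.q_pos
    exact_mod_cast (by omega : P.C.pd.q ≠ 0)
  obtain ⟨j, hj⟩ := perm_of P.C.pd (PowerSeries.map (starRingEnd ℂ)) (tq_conj' _ _) P.i
  obtain ⟨ζ, hζ⟩ : ∃ ζ, ζ = starRingEnd ℂ P.T / P.T := ⟨_, rfl⟩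
  have hζT : ζ * P.T = starRingEnd ℂ P.T := by rw [hζ]; field_simp
  have hζe : ζ ^ P.C.pd.e = 1 := by
    have h1 : starRingEnd ℂ (((P.C.pd.q : ℂ) * P.T) ^ P.C.pd.e) =
        ((P.C.pd.q : ℂ) * P.T) ^ P.C.pd.e := by
      rw [ht]
      simp
    rw [map_pow, map_mul, Complex.conj_natCast, mul_pow, mul_pow] at h1
    have h2 := mul_left_cancel₀ (pow_ne_zero _ hq0) h1
    rw [hζ, _root_.div_pow, h2]
    exact div_self (pow_ne_zero _ hT0)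
  obtain ⟨l, hl⟩ := perm_of P.C.pd (PowerSeries.rescale ζ) (tq_rescale hζe) j
  have hev : evT P.T (P.C.pd.x l) = (P.y : ℂ) / (P.x : ℂ) := by
    rw [← hl, evT_rescale, hζT, ← hj, evT_conj, hi']
    simp
  have hli : l = P.i := huniq l hev
  exact ⟨j, ζ, hj, hζe, by rw [hl, hli]⟩

/-- complex conjugation of the algebraic numbers -/
noncomputable def cjA : AA →+* ℂ := (starRingEnd ℂ).comp (algebraMap AA ℂ)

theorem cjA_eq (a : AA) : cjA a = starRingEnd ℂ (a : ℂ) := rfl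

/-- the label of the near branch is real -/
theorem lab_real {ν n : ℕ} (hν : 4 ≤ ν) (P : Ptd ν) (h : P.Thr (cA ν)) {θ : Fin n → ℂ} {l : Fin n}
    (L : LbG P (v1 θ) l) (hA : θ l ∈ AA) : starRingEnd ℂ (θ l) = θ l := by
  obtain ⟨j, ζ, hj, hζ, hr⟩ := ptd_near hν P h
  have h1 : ∀ k : ℕ, Cj cjA (PowerSeries.coeff k (P.C.pd.x P.i)) (PowerSeries.coeff k (P.C.pd.x j)) := by
    intro k a ha
    rw [cjA_eq, ha, ← hj, PowerSeries.coeff_map]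
  obtain ⟨h2, h3⟩ := L.gal cjA P.i L.mem j h1
  obtain ⟨h4, h5⟩ := L.rot ζ hζ j h2 P.i hr
  have h6 := h3 0 ⟨θ l, hA⟩ (by
    rw [L.near]
    rfl)
  rw [cjA_eq, ← h5, L.near] at h6
  exact h6

end Pool.Agent.H97.TU
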