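import Pool.Agent.H97.TU.NOB
import Pool.Agent.H97.TU.RLC
import Pool.Agent.H97.TU.FIM
import Pool.Agent.H97.TU.CEN

/-! # [H97 TU UCO] No point of large size over a fibre `f(a, Z)` with `a ≥ A0` -/

namespace Pool.Agent.H97.TU

open Finset Polynomial Pool.Agent.H72.ES Pool.Agent.H87.SA Pool.Agent.H87.SA2 Pool.Agent.H87.AX
  Pool.Agent.H8.AW Pool.Agent.H52.AC Pool.Agent.H97.NW Pool.Agent.H34.AC Pool.Agent.H97.FB
  Pool.Agent.H97.FC

/-- the fields of the real roots of `g` contain fields of the list `QQ` of sufficient degree -/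
def HasQ (n : ℕ) (QQ : Finset ℚ[X]) (g : ℤ[X]) : Prop :=
  ∀ p : ℚ[X], Irreducible p → p ∣ g.map (Int.castRingHom ℚ) → (∃ x : ℝ, aeval x p = 0) →
    ∃ q ∈ QQ, Irreducible q ∧ (∃ φ : ℚ[X], p ∣ q.comp φ) ∧
      ∃ M, 1 ≤ M ∧ Num M n q.natDegree p.natDegree

/-- a subfield has a smaller degree -/
theorem deg_le_of_dvd_comp {p q φ : ℚ[X]} (hp : Irreducible p) (hq : Irreducible q)
    (h : p ∣ q.comp φ) : q.natDegree ≤ p.natDegree := by
  have : Fact (Irreducible p) := ⟨hp⟩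
  have hfd : FiniteDimensional ℚ (AdjoinRoot p) := (AdjoinRoot.powerBasis hp.ne_zero).finite
  have hroot : aeval (AdjoinRoot.mk p φ) q = 0 := by
    have h1 : aeval (AdjoinRoot.mk p φ) q = AdjoinRoot.mk p (q.comp φ) := by
      rw [← AdjoinRoot.aeval_eq, ← AdjoinRoot.aeval_eq, aeval_comp]
      rfl
    rw [h1, AdjoinRoot.mk_eq_zero]
    exact h
  have h2 : q.natDegree = (minpoly ℚ (AdjoinRoot.mk p φ)).natDegree := by
    have h3 := minpoly.eq_of_irreducible hq hroot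
    rw [← h3, natDegree_mul_C]
    exact inv_ne_zero (leadingCoeff_ne_zero.2 hq.ne_zero)
  rw [h2]
  refine (minpoly.natDegree_le (AdjoinRoot.mk p φ)).trans ?_
  rw [(AdjoinRoot.powerBasis hp.ne_zero).finrank, AdjoinRoot.powerBasis_dim]

/-- a real root of the centre polynomial -/
theorem cen_root {n : ℕ} (hn : 1 ≤ n) {g : ℤ[X]} (hd : g.natDegree = n) {γ : Fin n → ℂ}
    (hγ : Rts (cenU n g) γ) (l : Fin n) (hl : starRingEnd ℂ (γ l) = γ l) :
    ∃ (z : ℂ) (c : ℚ), c ≠ 0 ∧ (algebraMap ℚ ℂ c) * γ l = z ∧ Irreducible (minpoly ℚ z) ∧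
      minpoly ℚ z ∣ g.map (Int.castRingHom ℚ) ∧ (minpoly ℚ z).natDegree ≤ n ∧
      (∃ x : ℝ, aeval x (minpoly ℚ z) = 0) ∧
      ((minpoly ℚ z).comp (C c * X) ≠ 0) ∧
      ((minpoly ℚ z).comp (C c * X)).natDegree = (minpoly ℚ z).natDegree ∧
      aeval (γ l) (C c * X : ℚ[X]) = z := by
  have hl0 : g.coeff n ≠ 0 := by
    have h3 : g.leadingCoeff ≠ 0 := by
      rw [Ne, leadingCoeff_eq_zero]
      rintro rfl
      simp at hd
      omega
    rwa [leadingCoeff, hd] at h3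
  have hlC : ((g.coeff n : ℤ) : ℂ) ≠ 0 := by exact_mod_cast hl0
  have hlQ : ((g.coeff n : ℤ) : ℚ) ≠ 0 := by exact_mod_cast hl0
  obtain ⟨z, hz⟩ : ∃ z : ℂ, z = γ l / (g.coeff n : ℂ) := ⟨_, rfl⟩
  have hγz : (g.coeff n : ℂ) * z = γ l := by
    rw [hz]
    field_simp
  have hroot : aeval (γ l) (cenU n g) = 0 := by
    rw [aeval_def, algebraMap_int_eq, ← eval_map, hγ.1, eval_prod]
    exact Finset.prod_eq_zero (Finset.mem_univ l) (by simp)
  have hgz : aeval z g = 0 := by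
    have h1 : aeval z ((cenU n g).comp (Polynomial.C (g.coeff n) * X)) =
        aeval z (Polynomial.C (g.coeff n ^ (n - 1)) * g) := by rw [cenU_rel hn hd]
    have e1 : aeval z (Polynomial.C (g.coeff n) * X : ℤ[X]) = γ l := by
      rw [← hγz, map_mul, aeval_C, aeval_X, algebraMap_int_eq, Int.coe_castRingHom]
    have e2 : aeval z (Polynomial.C (g.coeff n ^ (n - 1)) : ℤ[X]) = (g.coeff n : ℂ) ^ (n - 1) := by
      rw [aeval_C, algebraMap_int_eq, map_pow, Int.coe_castRingHom]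
    rw [aeval_comp, e1, hroot, map_mul, e2] at h1
    rcases mul_eq_zero.1 h1.symm with h2 | h2
    · exact absurd h2 (pow_ne_zero (n - 1) hlC)
    · exact h2
  have hgQz : aeval z (g.map (Int.castRingHom ℚ)) = 0 := by
    have h4 := aeval_map_algebraMap ℚ z g
    rw [algebraMap_int_eq] at h4
    rw [h4, hgz]
  have hgQ0 : g.map (Int.castRingHom ℚ) ≠ 0 := by
    rw [Ne, Polynomial.map_eq_zero_iff (RingHom.injective_int _)]
    rintro rfl
    simp at hl0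
  have hint : IsIntegral ℚ z := (isAlgebraic_iff_isIntegral).1 ⟨_, hgQ0, hgQz⟩
  have hmd : minpoly ℚ z ∣ g.map (Int.castRingHom ℚ) := minpoly.dvd ℚ z hgQz
  refine ⟨z, (((g.coeff n : ℤ) : ℚ))⁻¹, inv_ne_zero hlQ, ?_, minpoly.irreducible hint, hmd, ?_, ?_,
    ?_, ?_, ?_⟩
  · rw [map_inv₀, map_intCast, hz]
    field_simp
  · refine (natDegree_le_of_dvd hmd hgQ0).trans ?_
    rw [natDegree_map_eq_of_injective (RingHom.injective_int _), hd]
  · have hzr : starRingEnd ℂ z = z := by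
      rw [hz, map_div₀, hl]
      simp
    obtain ⟨x, hx⟩ := Complex.conj_eq_iff_real.1 hzr
    refine ⟨x, ?_⟩
    apply Complex.ofReal_injective
    have h1 := aeval_algebraMap_apply ℂ x (minpoly ℚ z)
    rw [Complex.coe_algebraMap] at h1
    rw [← h1, ← hx, minpoly.aeval, Complex.ofReal_zero]
  · intro h0
    rcases comp_eq_zero_iff.1 h0 with h1 | h1
    · exact minpoly.ne_zero hint h1
    · have h2 := congrArg natDegree h1.2
      rw [natDegree_C_mul_X _ (inv_ne_zero hlQ), natDegree_C] at h2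
      exact one_ne_zero h2
  · rw [natDegree_comp, natDegree_C_mul_X _ (inv_ne_zero hlQ), mul_one]
  · rw [map_mul, aeval_C, aeval_X, ← hγz, map_inv₀, map_intCast]
    field_simp

/-- the field of a root of the centre polynomial -/
theorem cen_fld {n : ℕ} (hn : 1 ≤ n) {g : ℤ[X]} (hd : g.natDegree = n) {γ : Fin n → ℂ}
    (hγ : Rts (cenU n g) γ) {QQ : Finset ℚ[X]} (hQ : HasQ n QQ g) (l : Fin n)
    (hl : starRingEnd ℂ (γ l) = γ l) :
    ∃ q ∈ QQ, Irreducible q ∧ q.natDegree ≤ n ∧ ∃ p φ : ℚ[X], p ≠ 0 ∧ p.natDegree ≤ n ∧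
      aeval (γ l) p = 0 ∧ aeval (aeval (γ l) φ) q = 0 ∧
      ∃ M, 1 ≤ M ∧ Num M n q.natDegree p.natDegree := by
  obtain ⟨z, c, -, -, hmi, hmd, hpn, hre, hp0, hpd, hcomp⟩ := cen_root hn hd hγ l hl
  obtain ⟨q, hq, hqi, ⟨φ, hφ⟩, hnum⟩ := hQ _ hmi hmd hre
  refine ⟨q, hq, hqi, (deg_le_of_dvd_comp hmi hqi hφ).trans hpn,
    (minpoly ℚ z).comp (C c * X), φ.comp (C c * X), hp0, ?_, ?_, ?_, ?_⟩
  · rw [hpd]
    exact hpn
  · rw [aeval_comp, hcomp, minpoly.aeval]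
  · rw [aeval_comp, hcomp]
    obtain ⟨u, hu⟩ := hφ
    have h1 : aeval z (q.comp φ) = 0 := by rw [hu, map_mul, minpoly.aeval, zero_mul]
    rwa [aeval_comp] at h1
  · rw [hpd]
    exact hnum

/-- the near label of a large point is a real root of the centre -/
theorem near_real {n m ν b : ℕ} (hν : 4 ≤ ν) {γ : Fin n → ℂ} {f : ℤ[X][X]} (Fm : FibM n m b γ f)
    {a : ℕ} (hR : Rts (fa f a) (thA Fm.Fm.pd m a))
    (hre : ∀ l, starRingEnd ℂ (thA Fm.Fm.pd m a l) = thA Fm.Fm.pd m a l →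
      starRingEnd ℂ (PowerSeries.coeff 0 (Fm.Fm.pd.x l)) = PowerSeries.coeff 0 (Fm.Fm.pd.x l))
    (P : Ptd ν) (hThr : P.Thr (cA ν)) {l : Fin n}
    (hL : Nonempty (LbG P (v1 (thA Fm.Fm.pd m a)) l)) : starRingEnd ℂ (γ l) = γ l := by
  obtain ⟨L⟩ := hL
  have hint := (gdG_one (Fm.Fm.monic.map (evalRingHom (a : ℤ))) hR).int l 0
  have hA : thA Fm.Fm.pd m a l ∈ AA := by
    rw [mem_algebraicClosure_iff]
    exact (hint.tower_top (A := ℚ)).isAlgebraic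
  rw [← Fm.cen l]
  exact hre l (lab_real hν P hThr L hA)

/-- no point of large size over a fibre with a large parameter -/
theorem noPt (n m ν : ℕ) (hn : 3 ≤ n) (hm : 1 ≤ m) (hν : 4 ≤ ν) : ∃ (C : ℕ) (R1 : ℝ), 2 ≤ C ∧
    1 ≤ R1 ∧ ∀ QQ : Finset ℚ[X], ∃ A0 : ℕ, ∀ (f : ℤ[X][X]) (B a : ℕ), f.natDegree = n →
      (∀ i, (f.coeff i).natDegree ≤ m) → (ldU m f).natDegree = n →
      Squarefree ((ldU m f).map (Int.castRingHom ℚ)) → HasQ n QQ (ldU m f) →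
      Irreducible (f.map (mapRingHom (Int.castRingHom ℂ))) →
      (∀ i j, |(f.coeff i).coeff j| ≤ (B : ℤ)) → 2 ≤ B → B ^ C ≤ a → A0 ≤ a →
      Irreducible ((fa (mo n f) a).map (Int.castRingHom ℚ)) →
      ∀ P : Ptd ν, P.Thr C → R1 * Real.log a ≤ P.ell →
      (∀ θ : Fin n → ℂ, Rts (fa (mo n f) a) θ → ∃ l, Nonempty (LbG P (v1 θ) l)) →
      False := by
  obtain ⟨R1, c1, hR1, hbad⟩ := noBad n m ν (by omega) hm hν
  obtain ⟨c2, hfib⟩ := exists_fibM n m (by omega) hm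
  obtain ⟨CT, hTR⟩ := thA_rts n m
  obtain ⟨CR, hRR⟩ := fam_real n m
  obtain ⟨C, hCd⟩ : ∃ C, C = c2 * (c1 + CT + CR) + c1 + cA ν + 2 := ⟨_, rfl⟩
  have hCa : c2 * (c1 + CT + CR) ≤ C := by rw [hCd]; omega
  have hCb : c1 ≤ C := by rw [hCd]; omega
  have hCc : cA ν ≤ C := by rw [hCd]; omega
  have hC2 : 2 ≤ C := by rw [hCd]; omega
  refine ⟨C, R1, hC2, hR1, fun QQ => ?_⟩
  obtain ⟨A0, hA0⟩ := hbad QQ
  refine ⟨A0, fun f B a hd hmd hg hsq hQ hfirr hfB hB2 hBa hA hirr P hThr hbig hlab => ?_⟩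
  obtain ⟨γ, hmon, hrts, hfam⟩ := hfib f hd hmd hg hsq hfirr
  obtain ⟨b, hb, ⟨Fm⟩⟩ := hfam B hB2 hfB
  have ha1 : 1 ≤ a := (Nat.one_le_pow _ _ (by omega)).trans hBa
  have hb2 := Fm.Fm.B2
  have hbc : b ^ (c1 + CT + CR) ≤ a := by
    refine (Nat.pow_le_pow_left hb _).trans ?_
    rw [← pow_mul]
    exact (Nat.pow_le_pow_right (by omega) hCa).trans hBa
  have hbc1 : b ^ c1 ≤ a := (Nat.pow_le_pow_right (by omega) (by omega)).trans hbc
  have hbcT : b ^ CT ≤ a := (Nat.pow_le_pow_right (by omega) (by omega)).trans hbc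
  have hbcR : b ^ CR ≤ a := (Nat.pow_le_pow_right (by omega) (by omega)).trans hbc
  have hR := hTR b _ Fm.Fm a hbcT
  obtain ⟨l, hL⟩ := hlab _ hR
  have hre := near_real hν Fm hR (hRR b _ Fm.Fm a hbcR) P (P.thr_mono hCc hThr) hL
  obtain ⟨q, hq, hqi, hqn, p, φ, hp0, hpn, hpl, hφl, hnum⟩ := cen_fld (by omega) hg hrts hQ l hre
  have h1 := hA0 q hq hqi hqn p.natDegree hpn hnum _ hφl
    ⟨a, b, cenU n (ldU m f), γ, _, hmon, hrts, Fm, l, p, hp0, le_refl _, hpl, φ, rfl, P, hL, hirr,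
      hbc1, P.thr_mono hCb hThr, hbig, ha1⟩
  exact absurd h1 (not_lt.2 hA)

/-- the real roots of the centre have degree less than `n / 2`: no point of large size at all -/
theorem noPt1 (n m ν : ℕ) (hn : 3 ≤ n) (hm : 1 ≤ m) (hν : 4 ≤ ν) : ∃ (C : ℕ) (R1 : ℝ), 2 ≤ C ∧
    1 ≤ R1 ∧ ∀ (f : ℤ[X][X]) (B a : ℕ), f.natDegree = n →
      (∀ i, (f.coeff i).natDegree ≤ m) → (ldU m f).natDegree = n →
      Squarefree ((ldU m f).map (Int.castRingHom ℚ)) →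
      (∀ p : ℚ[X], Irreducible p → p ∣ (ldU m f).map (Int.castRingHom ℚ) →
        (∃ x : ℝ, aeval x p = 0) → 2 * p.natDegree < n) →
      Irreducible (f.map (mapRingHom (Int.castRingHom ℂ))) →
      (∀ i j, |(f.coeff i).coeff j| ≤ (B : ℤ)) → 2 ≤ B → B ^ C ≤ a →
      Irreducible ((fa (mo n f) a).map (Int.castRingHom ℚ)) →
      ∀ P : Ptd ν, P.Thr C → R1 * Real.log a ≤ P.ell →
      (∀ θ : Fin n → ℂ, Rts (fa (mo n f) a) θ → ∃ l, Nonempty (LbG P (v1 θ) l)) →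
      False := by
  obtain ⟨R1, c1, hR1, hbad⟩ := noBadE n m ν (by omega) hm hν
  obtain ⟨c2, hfib⟩ := exists_fibM n m (by omega) hm
  obtain ⟨CT, hTR⟩ := thA_rts n m
  obtain ⟨CR, hRR⟩ := fam_real n m
  obtain ⟨C, hCd⟩ : ∃ C, C = c2 * (c1 + CT + CR) + c1 + cA ν + 2 := ⟨_, rfl⟩
  have hCa : c2 * (c1 + CT + CR) ≤ C := by rw [hCd]; omega
  have hCb : c1 ≤ C := by rw [hCd]; omega
  have hCc : cA ν ≤ C := by rw [hCd]; omega
  have hC2 : 2 ≤ C := by rw [hCd]; omega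
  refine ⟨C, R1, hC2, hR1, ?_⟩
  intro f B a hd hmd hg hsq hQ hfirr hfB hB2 hBa hirr P hThr hbig hlab
  obtain ⟨γ, hmon, hrts, hfam⟩ := hfib f hd hmd hg hsq hfirr
  obtain ⟨b, hb, ⟨Fm⟩⟩ := hfam B hB2 hfB
  have ha1 : 1 ≤ a := (Nat.one_le_pow _ _ (by omega)).trans hBa
  have hb2 := Fm.Fm.B2
  have hbc : b ^ (c1 + CT + CR) ≤ a := by
    refine (Nat.pow_le_pow_left hb _).trans ?_
    rw [← pow_mul]
    exact (Nat.pow_le_pow_right (by omega) hCa).trans hBa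
  have hbc1 : b ^ c1 ≤ a := (Nat.pow_le_pow_right (by omega) (by omega)).trans hbc
  have hbcT : b ^ CT ≤ a := (Nat.pow_le_pow_right (by omega) (by omega)).trans hbc
  have hbcR : b ^ CR ≤ a := (Nat.pow_le_pow_right (by omega) (by omega)).trans hbc
  have hR := hTR b _ Fm.Fm a hbcT
  obtain ⟨l, hL⟩ := hlab _ hR
  have hre := near_real hν Fm hR (hRR b _ Fm.Fm a hbcR) P (P.thr_mono hCc hThr) hL
  obtain ⟨z, c, -, -, hmi, hmd', hpn, hre', hp0, hpd, hcomp⟩ :=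
    cen_root (by omega) hg hrts l hre
  refine hbad (minpoly ℚ z).natDegree (hQ _ hmi hmd' hre')
    ⟨a, b, cenU n (ldU m f), γ, _, hmon, hrts, Fm, l, (minpoly ℚ z).comp (Polynomial.C c * X), hp0,
      hpd.le, ?_, 0, ?_, P, hL, hirr, hbc1, P.thr_mono hCb hThr, hbig, ha1⟩
  · rw [aeval_comp, hcomp, minpoly.aeval]
  · rw [map_zero]

end Pool.Agent.H97.TU
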