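import Pool.Agent.H97.TU.UCO
import Pool.Agent.H97.TU.AC1

/-! # [H97 TU UFI] All fibres `a g + h`: one constant -/

namespace Pool.Agent.H97.TU

open Finset Polynomial Pool.Agent.H72.ES Pool.Agent.H87.SA Pool.Agent.H87.SA2 Pool.Agent.H87.AX
  Pool.Agent.H8.AW Pool.Agent.H52.AC Pool.Agent.H97.NW Pool.Agent.H34.AC Pool.Agent.H97.FB
  Pool.Agent.H97.FC

/-- the polynomial with given coefficients -/
private noncomputable def poC (n : ℕ) (c : Fin (n + 1) → ℤ) : ℤ[X] :=
  ∑ i : Fin (n + 1), Polynomial.C (c i) * X ^ (i : ℕ)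

private theorem poC_eq {n : ℕ} {h : ℤ[X]} (hh : h.natDegree ≤ n) :
    poC n (fun i => h.coeff i) = h := by
  unfold poC
  rw [Fin.sum_univ_eq_sum_range (fun i => Polynomial.C (h.coeff i) * (X : ℤ[X]) ^ i)]
  exact (h.as_sum_range_C_mul_X_pow' (Nat.lt_succ_of_le hh)).symm

private theorem ufi_bd {d c : ℕ} {G : ℤ[X]} {K : ℕ}
    (hK : ∀ F : MvPolynomial (Fin 2) ℤ, Irreducible (MvPolynomial.map (Int.castRingHom ℚ) F) →
      F.totalDegree ≤ d → INg G F → ∀ H : ℕ, 2 ≤ H → (∀ e, |F.coeff e| ≤ (H : ℤ)) →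
      ∀ x y : ℤ, vl F x y = 0 → max x.natAbs y.natAbs ≤ K * H ^ c) {K' a C : ℕ} (hKK : K ≤ K')
    (ha : 1 ≤ a) (hcC : c ≤ C)
    (F : MvPolynomial (Fin 2) ℤ) (hF : Irreducible (MvPolynomial.map (Int.castRingHom ℚ) F))
    (hFd : F.totalDegree ≤ d) (hing : INg G F) (H : ℕ) (hH : 2 ≤ H)
    (hFH : ∀ e, |F.coeff e| ≤ (H : ℤ)) (x y : ℤ) (h0 : vl F x y = 0) :
    max x.natAbs y.natAbs ≤ K' * (a * H) ^ C := by
  refine (hK F hF hFd hing H hH hFH x y h0).trans (Nat.mul_le_mul hKK ?_)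
  exact (Nat.pow_le_pow_right (by omega) hcC).trans
    (Nat.pow_le_pow_left (Nat.le_mul_of_pos_left H ha) _)

/-- the degree of `a g + h` -/
private theorem ufi_deg {n a B C : ℕ} {g h : ℤ[X]} (hn : 1 ≤ n) (hg : g.natDegree = n)
    (hh : h.natDegree ≤ n) (hhB : ∀ i, |h.coeff i| ≤ (B : ℤ)) (hB : 2 ≤ B) (hC : 2 ≤ C)
    (ha : B ^ C ≤ a) : (Polynomial.C (a : ℤ) * g + h).natDegree = n := by
  have hBlt : B < a := by
    have h1 : B ^ 2 ≤ a := (Nat.pow_le_pow_right (by omega) hC).trans ha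
    nlinarith
  refine le_antisymm ?_ (le_natDegree_of_ne_zero ?_)
  · refine (natDegree_add_le _ _).trans (max_le ?_ hh)
    exact (natDegree_C_mul_le _ _).trans hg.le
  · rw [coeff_add, coeff_C_mul]
    intro h1
    have h2 : g.coeff n ≠ 0 := by
      have h3 : g.leadingCoeff ≠ 0 := by
        rw [Ne, leadingCoeff_eq_zero]
        rintro rfl
        simp at hg
        omega
      rwa [leadingCoeff, hg] at h3
    have h3 : (1 : ℤ) ≤ |g.coeff n| := Int.one_le_abs h2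
    have h4 : |g.coeff n| * (a : ℤ) = |h.coeff n| := by
      have h5 : h.coeff n = -(g.coeff n * a) := by linarith
      rw [h5, abs_neg, abs_mul, abs_of_nonneg (Int.natCast_nonneg a)]
    have h5 := hhB n
    have h6 : (B : ℤ) < a := by exact_mod_cast hBlt
    have h7 : (a : ℤ) ≤ |g.coeff n| * (a : ℤ) :=
      le_mul_of_one_le_left (Int.natCast_nonneg a) h3
    linarith

theorem uniform (n r M d : ℕ) (hn : 3 ≤ n) (hM : 1 ≤ M) (hd : 3 ≤ d)
    (hnum : (2 * M) ^ (2 * M) * r < (2 * M).factorial * n ^ M) : ∃ C : ℕ, 2 ≤ C ∧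
    ∀ g : ℤ[X], g.natDegree = n → Squarefree (g.map (Int.castRingHom ℚ)) →
      (∀ p : ℚ[X], Irreducible p → p ∣ g.map (Int.castRingHom ℚ) → p.natDegree ≤ r) →
      ∃ K : ℕ, ∀ (a B : ℕ) (h : ℤ[X]), 2 ≤ B → B ^ C ≤ a → h.natDegree ≤ n →
        (∀ i, |h.coeff i| ≤ (B : ℤ)) →
        Irreducible ((Polynomial.C (a : ℤ) * g + h).map (Int.castRingHom ℚ)) →
        ∀ F : MvPolynomial (Fin 2) ℤ, Irreducible (MvPolynomial.map (Int.castRingHom ℚ) F) →
        F.totalDegree ≤ d → INg (Polynomial.C (a : ℤ) * g + h) F → ∀ H : ℕ, 2 ≤ H →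
        (∀ e, |F.coeff e| ≤ (H : ℤ)) → ∀ x y : ℤ, vl F x y = 0 →
        max x.natAbs y.natAbs ≤ K * (a * H) ^ C := by
  classical
  obtain ⟨C0, hC02, hcore⟩ := U_core n r M d hn hM hd hnum
  obtain ⟨c1, hfix⟩ := fixed_field d hd
  obtain ⟨C, hCd⟩ : ∃ C, C = C0 + c1 := ⟨_, rfl⟩
  have hCa : C0 ≤ C := by omega
  have hCb : c1 ≤ C := by omega
  have hC2 : 2 ≤ C := by omega
  refine ⟨C, hC2, fun g hg hsq hfac => ?_⟩
  obtain ⟨A0, hA0⟩ := hcore g hg hsq hfac
  -- the constant of the centre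
  obtain ⟨K1, hK1⟩ : ∃ K1 : ℕ, Irreducible (g.map (Int.castRingHom ℚ)) →
      ∀ F : MvPolynomial (Fin 2) ℤ, Irreducible (MvPolynomial.map (Int.castRingHom ℚ) F) →
      F.totalDegree ≤ d → INg g F → ∀ H : ℕ, 2 ≤ H → (∀ e, |F.coeff e| ≤ (H : ℤ)) →
      ∀ x y : ℤ, vl F x y = 0 → max x.natAbs y.natAbs ≤ K1 * H ^ c1 := by
    by_cases hgi : Irreducible (g.map (Int.castRingHom ℚ))
    · obtain ⟨K, -, hK⟩ := hfix g hgi (by omega)
      exact ⟨K, fun _ => hK⟩
    · exact ⟨0, fun h => absurd h hgi⟩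
  -- the constants of the small fibres
  have hsm : ∀ (a : ℕ) (c : Fin (n + 1) → ℤ), ∃ K : ℕ,
      Irreducible ((Polynomial.C (a : ℤ) * g + poC n c).map (Int.castRingHom ℚ)) →
      3 ≤ (Polynomial.C (a : ℤ) * g + poC n c).natDegree →
      ∀ F : MvPolynomial (Fin 2) ℤ, Irreducible (MvPolynomial.map (Int.castRingHom ℚ) F) →
      F.totalDegree ≤ d → INg (Polynomial.C (a : ℤ) * g + poC n c) F →
      ∀ H : ℕ, 2 ≤ H → (∀ e, |F.coeff e| ≤ (H : ℤ)) →
      ∀ x y : ℤ, vl F x y = 0 → max x.natAbs y.natAbs ≤ K * H ^ c1 := by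
    intro a c
    by_cases h1 : Irreducible ((Polynomial.C (a : ℤ) * g + poC n c).map (Int.castRingHom ℚ))
    · by_cases h2 : 3 ≤ (Polynomial.C (a : ℤ) * g + poC n c).natDegree
      · obtain ⟨K, -, hK⟩ := hfix _ h1 h2
        exact ⟨K, fun _ _ => hK⟩
      · exact ⟨0, fun _ h => absurd h h2⟩
    · exact ⟨0, fun h => absurd h h1⟩
  choose Kf hKf using hsm
  obtain ⟨K2, hK2⟩ : ∃ K2 : ℕ, ∀ a < A0, ∀ c : Fin (n + 1) → ℤ, (∀ i, |c i| ≤ (A0 : ℤ)) →
      Kf a c ≤ K2 := by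
    refine ⟨∑ a ∈ range A0, ∑ c ∈ Fintype.piFinset fun _ : Fin (n + 1) => Icc (-(A0 : ℤ)) A0,
      Kf a c, fun a ha c hc => ?_⟩
    have h1 : Kf a c ≤ ∑ c ∈ Fintype.piFinset fun _ : Fin (n + 1) => Icc (-(A0 : ℤ)) A0, Kf a c :=
      single_le_sum (f := fun c => Kf a c) (fun _ _ => Nat.zero_le _)
        (Fintype.mem_piFinset.2 fun i => mem_Icc.2 (abs_le.1 (hc i)))
    exact h1.trans (single_le_sum
      (f := fun a => ∑ c ∈ Fintype.piFinset fun _ : Fin (n + 1) => Icc (-(A0 : ℤ)) A0, Kf a c)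
      (fun _ _ => Nat.zero_le _) (mem_range.2 ha))
  refine ⟨K1 + K2 + 1, ?_⟩
  intro a B h hB hBa hh hhB hirr F hF hFd hing H hH hFH x y h0
  have ha1 : 1 ≤ a := (Nat.one_le_pow _ _ (by omega)).trans hBa
  have hdeg := ufi_deg (C := C) (by omega) hg hh hhB hB hC2 hBa
  rcases Nat.lt_or_ge a A0 with hlt | hge
  · -- a small fibre
    have hBA : B ≤ A0 := by
      have h1 : B ≤ B ^ C := Nat.le_self_pow (by omega) B
      omega
    have he := poC_eq hh
    have hKle : Kf a (fun i => h.coeff i) ≤ K1 + K2 + 1 := by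
      have := hK2 a hlt (fun i => h.coeff i) (fun i => (hhB i).trans (by exact_mod_cast hBA))
      omega
    refine ufi_bd (d := d) (c := c1) (G := Polynomial.C (a : ℤ) * g + h)
      (K := Kf a (fun i => h.coeff i)) ?_ hKle ha1 hCb F hF hFd hing H hH hFH x y h0
    have h1 := hKf a (fun i => h.coeff i)
    rw [he] at h1
    exact h1 hirr (by omega)
  · by_cases hcop : IsCoprime (g.map (Int.castRingHom ℚ)) (h.map (Int.castRingHom ℚ))
    · have h1 := hA0 a B h hge hB ((Nat.pow_le_pow_right (by omega) hCa).trans hBa) hh hhB hcop hirr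
        F hF hFd hing H hH hFH x y h0
      have h2 : (a * H) ^ C0 ≤ (a * H) ^ C :=
        Nat.pow_le_pow_right (Nat.mul_pos ha1 (by omega)) hCa
      exact (h1.trans h2).trans (Nat.le_mul_of_pos_left _ (by omega))
    · -- the fibre is a multiple of the centre
      have hgne : g.map (Int.castRingHom ℚ) ≠ 0 := hsq.ne_zero
      have hdvd : (Polynomial.C (a : ℤ) * g + h).map (Int.castRingHom ℚ) ∣
          g.map (Int.castRingHom ℚ) := by
        obtain ⟨q, hq, hqg, hqh⟩ : ∃ q : ℚ[X], Irreducible q ∧ q ∣ g.map (Int.castRingHom ℚ) ∧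
            q ∣ h.map (Int.castRingHom ℚ) := by
          by_contra hno
          push Not at hno
          refine hcop (isCoprime_of_irreducible_dvd (fun hh => hgne hh.1) fun q hq hqg hqh => ?_)
          exact hno q hq hqg hqh
        have hqG : q ∣ (Polynomial.C (a : ℤ) * g + h).map (Int.castRingHom ℚ) := by
          rw [Polynomial.map_add, Polynomial.map_mul]
          exact dvd_add (hqg.mul_left _) hqh
        exact (hq.associated_of_dvd hirr hqG).symm.dvd.trans hqg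
      have hass := associated_of_dvd_of_natDegree_le hdvd hgne (by
        rw [natDegree_map_eq_of_injective (RingHom.injective_int _),
          natDegree_map_eq_of_injective (RingHom.injective_int _), hdeg, hg])
      have hgirr : Irreducible (g.map (Int.castRingHom ℚ)) := hass.irreducible hirr
      have hing' : INg g F := by
        intro K _ _ hR X' Y' hXY
        rcases hing K hR X' Y' hXY with h1 | ⟨θ, hθ⟩
        · exact Or.inl h1
        · refine Or.inr ⟨θ, ?_⟩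
          obtain ⟨u, hu⟩ := hdvd
          have h2 : aeval θ ((Polynomial.C (a : ℤ) * g + h).map (Int.castRingHom ℚ)) = 0 := by
            have h3 := aeval_map_algebraMap ℚ θ (Polynomial.C (a : ℤ) * g + h)
            rw [algebraMap_int_eq] at h3
            rw [h3, hθ]
          have h3 : aeval θ (g.map (Int.castRingHom ℚ)) = 0 := by
            rw [hu, map_mul, h2, zero_mul]
          have h4 := aeval_map_algebraMap ℚ θ g
          rw [algebraMap_int_eq] at h4
          rw [← h4, h3]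
      exact ufi_bd (hK1 hgirr) (by omega) ha1 hCb F hF hFd hing' H hH hFH x y h0

end Pool.Agent.H97.TU
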